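import Mathlib
import Pool.Agent.Lib.QuadParity.Count
import Pool.Agent.Lib.QuadParity.Mert

/-!
A lower bound sieve of dimension `D`: integers avoiding at most `D` residue classes modulo every
prime between `D` and `z`.
-/

set_option autoImplicit false

namespace Pool.Agent.Lib.QuadThree

open Finset Pool.Agent.Lib.MP_369a91_nt Pool.Agent.Lib.QuadParity

/-- range endpoints -/
def Bd (n0 i : ℕ) : ℕ := 2 ^ (2 ^ (n0 + i))

/-- prime ranges -/
def Pr (D n0 : ℕ) : ℕ → Finset ℕ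
  | 0 => (Finset.Ioc D (Bd n0 0)).filter Nat.Prime
  | (i + 1) => (Finset.Ioc (Bd n0 i) (Bd n0 (i + 1))).filter Nat.Prime

theorem Bd_mono (n0 i : ℕ) : Bd n0 i ≤ Bd n0 (i + 1) := by
  unfold Bd
  apply Nat.pow_le_pow_right (by norm_num)
  exact Nat.pow_le_pow_right (by norm_num) (by omega)

theorem lt_Bd (n0 i : ℕ) (hn0 : 14 ≤ n0) : 1000 * n0 ≤ Bd n0 i := by
  unfold Bd
  have h1 : n0 < 2 ^ n0 := Nat.lt_two_pow_self
  have h2 : 2 ^ n0 ≤ 2 ^ (n0 + i) := Nat.pow_le_pow_right (by norm_num) (by omega)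
  have h3 : 2 ^ n0 < 2 ^ (2 ^ n0) := Nat.lt_two_pow_self
  have h4 : 2 ^ (2 ^ n0) ≤ 2 ^ (2 ^ (n0 + i)) := Nat.pow_le_pow_right (by norm_num) h2
  have h5 : 2 ^ (10 + n0) ≤ 2 ^ (2 ^ n0) := by
    apply Nat.pow_le_pow_right (by norm_num)
    have h6 : n0 * 2 ≤ 2 ^ n0 := by
      have h7 : n0 - 1 < 2 ^ (n0 - 1) := Nat.lt_two_pow_self
      have h8 : 2 ^ n0 = 2 * 2 ^ (n0 - 1) := by
        rw [← pow_succ']; congr 1; omega
      omega
    omega
  have h9 : 2 ^ (10 + n0) = 1024 * 2 ^ n0 := by rw [pow_add]; norm_num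
  omega

theorem one_le_Bd (n0 i : ℕ) : 1 ≤ Bd n0 i := Nat.one_le_two_pow

section

variable (D n0 : ℕ)

theorem Pr_sub (hn0 : 14 ≤ n0) (hD : D ≤ n0) (i : ℕ) :
    Pr D n0 i ⊆ (Finset.Ioc D (Bd n0 i)).filter Nat.Prime := by
  intro q hq
  cases i with
  | zero => exact hq
  | succ i =>
    simp only [Pr, Finset.mem_filter, Finset.mem_Ioc] at hq ⊢
    have := lt_Bd n0 i hn0
    exact ⟨⟨by omega, hq.1.2⟩, hq.2⟩

theorem Pr_prime (hn0 : 14 ≤ n0) (hD : D ≤ n0) (i : ℕ) (q : ℕ) (hq : q ∈ Pr D n0 i) : q.Prime :=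
  (Finset.mem_filter.1 (Pr_sub D n0 hn0 hD i hq)).2

theorem Pr_gt (hn0 : 14 ≤ n0) (hD : D ≤ n0) (i : ℕ) (q : ℕ) (hq : q ∈ Pr D n0 i) : D < q := by
  have h1 := Finset.mem_filter.1 (Pr_sub D n0 hn0 hD i hq)
  rw [Finset.mem_Ioc] at h1
  exact h1.1.1

theorem Pr_card (hn0 : 14 ≤ n0) (hD : D ≤ n0) (i : ℕ) : (Pr D n0 i).card ≤ Bd n0 i := by
  calc (Pr D n0 i).card ≤ ((Finset.Ioc D (Bd n0 i)).filter Nat.Prime).card :=
        Finset.card_le_card (Pr_sub D n0 hn0 hD i)
    _ ≤ (Finset.Ioc D (Bd n0 i)).card := Finset.card_filter_le _ _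
    _ ≤ Bd n0 i := by rw [Nat.card_Ioc]; omega

theorem PiU_Pr (hn0 : 14 ≤ n0) (hD : D ≤ n0) (t : ℕ) :
    PiU (Pr D n0) (t + 1) = (Finset.Ioc D (Bd n0 t)).filter Nat.Prime := by
  classical
  induction t with
  | zero =>
    rw [PiU_succ]
    simp [PiU, Pr]
  | succ t ih =>
    rw [PiU_succ, ih]
    ext q
    simp only [Pr, Finset.mem_union, Finset.mem_filter, Finset.mem_Ioc]
    have h1 := Bd_mono n0 t
    have h2 := lt_Bd n0 t hn0
    constructor
    · rintro (⟨⟨a1, a2⟩, a3⟩ | ⟨⟨a1, a2⟩, a3⟩)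
      · exact ⟨⟨a1, by omega⟩, a3⟩
      · exact ⟨⟨by omega, a2⟩, a3⟩
    · rintro ⟨⟨a1, a2⟩, a3⟩
      by_cases h : q ≤ Bd n0 t
      · left; exact ⟨⟨a1, h⟩, a3⟩
      · right; exact ⟨⟨by omega, a2⟩, a3⟩

theorem Pr_disjoint (hn0 : 14 ≤ n0) (hD : D ≤ n0) (t : ℕ) :
    Disjoint (PiU (Pr D n0) t) (Pr D n0 t) := by
  classical
  cases t with
  | zero => simp [PiU]
  | succ t =>
    rw [PiU_Pr D n0 hn0 hD, Finset.disjoint_left]
    intro q hq hq'
    simp only [Pr, Finset.mem_filter, Finset.mem_Ioc] at hq hq'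
    omega

theorem sum_Pr_le (hn0 : 14 ≤ n0) (i : ℕ) :
    ∑ q ∈ Pr D n0 (i + 1), (D : ℝ) / q ≤ 0.73 * D := by
  have h1 := rs_range (n0 + i) (by omega)
  have h2 : ∑ q ∈ Pr D n0 (i + 1), (D : ℝ) / q =
      D * rs (2 ^ (2 ^ (n0 + i))) (2 ^ (2 ^ (n0 + i + 1))) := by
    unfold rs
    rw [Finset.mul_sum]
    simp only [Pr, Bd]
    rw [Finset.sum_filter]
    apply Finset.sum_congr (by rw [add_assoc])
    intro q _
    split_ifs
    · ring
    · ring
  rw [h2, mul_comm]
  exact mul_le_mul_of_nonneg_right h1 (Nat.cast_nonneg D)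

theorem one_sub_ge (x : ℝ) (h0 : 0 ≤ x) (h1 : x ≤ 1 / 1000) :
    Real.exp (-(1.0011 * x)) ≤ 1 - x := by
  have h2 : 0 < 1 - x := by linarith
  rw [Real.exp_neg]
  rw [inv_le_comm₀ (Real.exp_pos _) h2]
  have h3 : (1 - x)⁻¹ = 1 + x / (1 - x) := by field_simp; ring
  rw [h3]
  have h4 : x / (1 - x) ≤ 1.0011 * x := by
    rw [div_le_iff₀ h2]; nlinarith
  have h5 := Real.add_one_le_exp (1.0011 * x)
  linarith

theorem exp_bound : (1 / 3 : ℝ) ^ D ≤ Real.exp (-(1.0011 * (0.73 * D))) := by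
  have h1 : (1 / 3 : ℝ) ≤ Real.exp (-(1.0011 * 0.73)) := by
    rw [Real.exp_neg, one_div]
    apply inv_anti₀ (Real.exp_pos _)
    have h7 := Real.exp_one_lt_d9
    calc Real.exp (1.0011 * 0.73) ≤ Real.exp 1 := Real.exp_le_exp.2 (by norm_num)
      _ ≤ 3 := by linarith
  calc (1 / 3 : ℝ) ^ D ≤ Real.exp (-(1.0011 * 0.73)) ^ D :=
        pow_le_pow_left₀ (by norm_num) h1 D
    _ = Real.exp (-(1.0011 * (0.73 * D))) := by
        rw [← Real.exp_nat_mul]; congr 1; ring

theorem prod_Pr_ge (hn0 : 14 ≤ n0) (hD : D ≤ n0) (i : ℕ) :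
    (1 / 3 : ℝ) ^ D ≤ ∏ q ∈ Pr D n0 (i + 1), (1 - D / (q : ℝ)) := by
  have h1 := sum_Pr_le D n0 hn0 i
  calc (1 / 3 : ℝ) ^ D ≤ Real.exp (-(1.0011 * (0.73 * D))) := exp_bound D
    _ ≤ Real.exp (∑ q ∈ Pr D n0 (i + 1), -(1.0011 * (D / (q : ℝ)))) := by
        apply Real.exp_le_exp.2
        rw [Finset.sum_neg_distrib, ← Finset.mul_sum]
        nlinarith
    _ = ∏ q ∈ Pr D n0 (i + 1), Real.exp (-(1.0011 * (D / (q : ℝ)))) := Real.exp_sum _ _
    _ ≤ ∏ q ∈ Pr D n0 (i + 1), (1 - D / (q : ℝ)) := by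
        apply Finset.prod_le_prod
        · intro q _; exact (Real.exp_pos _).le
        · intro q hq
          simp only [Pr, Finset.mem_filter, Finset.mem_Ioc] at hq
          have hb := lt_Bd n0 i hn0
          have hq2 : 1000 * D ≤ q := by
            have := hq.1.1
            have h3 : 1000 * D ≤ 1000 * n0 := Nat.mul_le_mul_left _ hD
            omega
          have hq3 : (1000 : ℝ) * D ≤ q := by exact_mod_cast hq2
          have hq0 : (0 : ℝ) < q := by exact_mod_cast hq.2.pos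
          apply one_sub_ge _ (by positivity)
          rw [div_le_div_iff₀ hq0 (by norm_num)]
          linarith

theorem prod_Pr0_ge (hn0 : 14 ≤ n0) (hD : D ≤ n0) :
    (1 / (D + 1 : ℝ)) ^ (Bd n0 0) ≤ ∏ q ∈ Pr D n0 0, (1 - D / (q : ℝ)) := by
  have hD0 : (0 : ℝ) ≤ D := Nat.cast_nonneg D
  calc (1 / (D + 1 : ℝ)) ^ (Bd n0 0) ≤ (1 / (D + 1 : ℝ)) ^ (Pr D n0 0).card := by
        apply pow_le_pow_of_le_one (by positivity) _ (Pr_card D n0 hn0 hD 0)
        rw [div_le_one (by positivity)]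
        linarith
    _ = ∏ q ∈ Pr D n0 0, (1 / (D + 1 : ℝ)) := by rw [Finset.prod_const]
    _ ≤ _ := by
        apply Finset.prod_le_prod
        · intro q _; positivity
        · intro q hq
          have h1 := Pr_gt D n0 hn0 hD 0 q hq
          have h2 : (D : ℝ) + 1 ≤ q := by exact_mod_cast h1
          have h3 : D / (q : ℝ) ≤ D / (D + 1) :=
            div_le_div_of_nonneg_left hD0 (by positivity) h2
          have h4 : (1 : ℝ) / (D + 1) = 1 - D / (D + 1) := by field_simp; ring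
          linarith

end

/-- number of factors in range `i` from the top -/
theorem fact_bound (D m : ℕ) :
    (0.73 * (D : ℝ)) ^ (4 * D + 1 + 2 * m) / ((4 * D + 1 + 2 * m).factorial : ℝ) ≤
      0.2 * 0.04 ^ m * (1 / 3) ^ D := by
  have hx0 : (0 : ℝ) ≤ 3.65 * D := by positivity
  have h1 := Real.pow_div_factorial_le_exp (3.65 * (D : ℝ)) hx0 (4 * D + 1 + 2 * m)
  have h2 : Real.exp (3.65 * D) ≤ 55 ^ D := by
    have h7 := Real.exp_one_lt_d9
    have h8 : Real.exp 3.65 ≤ 55 := by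
      calc Real.exp 3.65 ≤ Real.exp 4 := Real.exp_le_exp.2 (by norm_num)
        _ = Real.exp 1 ^ 4 := by rw [← Real.exp_nat_mul]; norm_num
        _ ≤ 2.7182818286 ^ 4 := pow_le_pow_left₀ (Real.exp_pos _).le h7.le 4
        _ ≤ 55 := by norm_num
    calc Real.exp (3.65 * D) = Real.exp 3.65 ^ D := by
          rw [← Real.exp_nat_mul]; congr 1; ring
      _ ≤ 55 ^ D := pow_le_pow_left₀ (Real.exp_pos _).le h8 D
  have e1 : (0.73 * (D : ℝ)) ^ (4 * D + 1 + 2 * m) / ((4 * D + 1 + 2 * m).factorial : ℝ) =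
      0.2 ^ (4 * D + 1 + 2 * m) *
        ((3.65 * (D : ℝ)) ^ (4 * D + 1 + 2 * m) / ((4 * D + 1 + 2 * m).factorial : ℝ)) := by
    rw [← mul_div_assoc, ← mul_pow]
    congr 2
    ring
  rw [e1]
  calc (0.2 : ℝ) ^ (4 * D + 1 + 2 * m) *
        ((3.65 * (D : ℝ)) ^ (4 * D + 1 + 2 * m) / ((4 * D + 1 + 2 * m).factorial : ℝ)) ≤
      0.2 ^ (4 * D + 1 + 2 * m) * 55 ^ D :=
        mul_le_mul_of_nonneg_left (h1.trans h2) (by positivity)
    _ = 0.2 * 0.04 ^ m * (0.088 : ℝ) ^ D := by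
        rw [pow_add, pow_add, pow_mul, pow_mul]
        have e2 : (0.2 : ℝ) ^ 4 = 0.0016 := by norm_num
        have e3 : (0.2 : ℝ) ^ 2 = 0.04 := by norm_num
        have e4 : (0.088 : ℝ) = 0.0016 * 55 := by norm_num
        rw [e2, e3, e4, mul_pow]
        ring
    _ ≤ 0.2 * 0.04 ^ m * (1 / 3) ^ D := by
        apply mul_le_mul_of_nonneg_left _ (by positivity)
        exact pow_le_pow_left₀ (by norm_num) (by norm_num) D

theorem eps_sum (T : ℕ) : ∑ i ∈ Finset.range T, (0.2 : ℝ) * 0.04 ^ (T - 1 - i) ≤ 0.9 := by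
  have h : ∀ T : ℕ, ∑ i ∈ Finset.range T, (0.2 : ℝ) * 0.04 ^ (T - 1 - i) =
      (0.2 / 0.96) * (1 - 0.04 ^ T) := by
    intro T
    induction T with
    | zero => norm_num
    | succ T ih =>
      rw [Finset.sum_range_succ']
      have h2 : ∑ i ∈ Finset.range T, (0.2 : ℝ) * 0.04 ^ (T + 1 - 1 - (i + 1)) =
          ∑ i ∈ Finset.range T, (0.2 : ℝ) * 0.04 ^ (T - 1 - i) := by
        apply Finset.sum_congr rfl
        intro i _
        congr 2
        omega
      rw [h2, ih]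
      simp only [Nat.add_sub_cancel, Nat.sub_zero]
      ring
  rw [h]
  have : (0 : ℝ) < 0.04 ^ T := by positivity
  nlinarith

theorem F_sum (D T : ℕ) :
    ∑ i ∈ Finset.range T, 2 ^ (i + 1) * (4 * D + 1 + 2 * (T - 1 - i)) ≤ (8 * D + 6) * 2 ^ T := by
  induction T with
  | zero => simp
  | succ T ih =>
    rw [Finset.sum_range_succ]
    have h3 : ∑ i ∈ Finset.range T, 2 ^ (i + 1) * (4 * D + 1 + 2 * (T + 1 - 1 - i)) =
        ∑ i ∈ Finset.range T, 2 ^ (i + 1) * (4 * D + 1 + 2 * (T - 1 - i)) +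
        2 * ∑ i ∈ Finset.range T, 2 ^ (i + 1) := by
      rw [Finset.mul_sum, ← Finset.sum_add_distrib]
      apply Finset.sum_congr rfl
      intro i hi
      rw [Finset.mem_range] at hi
      have h4 : T + 1 - 1 - i = (T - 1 - i) + 1 := by omega
      rw [h4]; ring
    have h4 : ∀ t : ℕ, ∑ i ∈ Finset.range t, 2 ^ (i + 1) + 2 = 2 ^ (t + 1) := by
      intro t
      induction t with
      | zero => simp
      | succ t ih =>
        rw [Finset.sum_range_succ, pow_succ 2 (t + 1)]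
        omega
    have h5 := h4 T
    have h6 : T + 1 - 1 - T = 0 := by omega
    rw [h3, h6]
    have h7 : (2 : ℕ) ^ (T + 1) = 2 * 2 ^ T := by ring
    rw [h7] at h5 ⊢
    generalize (2 : ℕ) ^ T = P at *
    generalize ∑ i ∈ Finset.range T, 2 ^ (i + 1) = S at *
    have h8 : 2 * P * (4 * D + 1 + 2 * 0) = 8 * (D * P) + 2 * P := by ring
    have h9 : (8 * D + 6) * (2 * P) = 16 * (D * P) + 12 * P := by ring
    have h10 : (8 * D + 6) * P = 8 * (D * P) + 6 * P := by ring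
    rw [h8, h9]
    rw [h10] at ih
    omega

theorem G_sum (D T : ℕ) :
    ∑ i ∈ Finset.range T, (4 * D + 1 + 2 * (T - 1 - i)) ≤ (4 * D + 1 + 2 * T) * T := by
  calc ∑ i ∈ Finset.range T, (4 * D + 1 + 2 * (T - 1 - i)) ≤
      ∑ i ∈ Finset.range T, (4 * D + 1 + 2 * T) :=
        Finset.sum_le_sum (fun i _ => by omega)
    _ = (4 * D + 1 + 2 * T) * T := by
      rw [Finset.sum_const, Finset.card_range, smul_eq_mul]; ring

/-- truncation levels -/
def rr (D n0 T : ℕ) : ℕ → ℕ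
  | 0 => 2 * Bd n0 0
  | (i + 1) => 4 * D + 2 * (T - 1 - i)

theorem err_bound (D n0 : ℕ) (T : ℕ) :
    ∏ i ∈ Finset.range (T + 1), (1 + D * (Bd n0 i : ℝ)) ^ (rr D n0 T i + 1) ≤
      ((1 + D * Bd n0 0) ^ (2 * Bd n0 0 + 1) : ℕ) *
        (2 : ℝ) ^ ((8 * D + 6) * 2 ^ (n0 + T) + D * ((4 * D + 1 + 2 * T) * T)) := by
  rw [Finset.prod_range_succ', mul_comm]
  push_cast
  apply mul_le_mul
  · simp [rr]
  · calc ∏ i ∈ Finset.range T, (1 + D * (Bd n0 (i + 1) : ℝ)) ^ (rr D n0 T (i + 1) + 1) ≤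
        ∏ i ∈ Finset.range T,
          (2 : ℝ) ^ ((2 ^ (n0 + (i + 1)) + D) * (4 * D + 1 + 2 * (T - 1 - i))) := by
          apply Finset.prod_le_prod
          · intro i _; positivity
          · intro i _
            have h1 : rr D n0 T (i + 1) + 1 = 4 * D + 1 + 2 * (T - 1 - i) := by
              simp only [rr]; omega
            rw [h1, pow_mul]
            apply pow_le_pow_left₀ (by positivity)
            rw [pow_add]
            have h3 : (1 : ℝ) ≤ (Bd n0 (i + 1) : ℝ) := by exact_mod_cast one_le_Bd n0 (i + 1)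
            have h4 : (Bd n0 (i + 1) : ℝ) = 2 ^ (2 ^ (n0 + (i + 1))) := by
              unfold Bd; push_cast; rfl
            rw [← h4]
            have h5 : (D : ℝ) + 1 ≤ 2 ^ D := by
              have : D + 1 ≤ 2 ^ D := Nat.lt_two_pow_self
              exact_mod_cast this
            nlinarith
      _ = (2 : ℝ) ^ (∑ i ∈ Finset.range T,
            (2 ^ (n0 + (i + 1)) + D) * (4 * D + 1 + 2 * (T - 1 - i))) := by
          rw [Finset.prod_pow_eq_pow_sum]
      _ ≤ _ := by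
          apply pow_le_pow_right₀ (by norm_num)
          have h1 : ∑ i ∈ Finset.range T,
              (2 ^ (n0 + (i + 1)) + D) * (4 * D + 1 + 2 * (T - 1 - i)) =
              2 ^ n0 * ∑ i ∈ Finset.range T, 2 ^ (i + 1) * (4 * D + 1 + 2 * (T - 1 - i)) +
              D * ∑ i ∈ Finset.range T, (4 * D + 1 + 2 * (T - 1 - i)) := by
            rw [Finset.mul_sum, Finset.mul_sum, ← Finset.sum_add_distrib]
            apply Finset.sum_congr rfl
            intro i _
            rw [pow_add]; ring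
          rw [h1]
          have h2 := Nat.mul_le_mul_left (2 ^ n0) (F_sum D T)
          have h3 := Nat.mul_le_mul_left D (G_sum D T)
          have h5 : 2 ^ n0 * ((8 * D + 6) * 2 ^ T) = (8 * D + 6) * 2 ^ (n0 + T) := by
            rw [pow_add]; ring
          omega
  · apply Finset.prod_nonneg
    intro i _; positivity
  · positivity

/-- The sieve bound in raw form. -/
theorem sieve_raw (D n0 : ℕ) (hn0 : 14 ≤ n0) (hD : D ≤ n0) (T : ℕ)
    (bad : ℕ → ℕ → Prop) (hper : Per bad)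
    (hb : ∀ q : ℕ, q.Prime → D < q → q ≤ Bd n0 T → nb bad q ≤ D) (W : ℕ) :
    open Classical in
    (W : ℝ) * ((1 / (D + 1 : ℝ)) ^ (Bd n0 0) * ((1 / 3) ^ D) ^ T * 0.1) -
      ((1 + D * Bd n0 0) ^ (2 * Bd n0 0 + 1) : ℕ) *
        (2 : ℝ) ^ ((8 * D + 6) * 2 ^ (n0 + T) + D * ((4 * D + 1 + 2 * T) * T)) ≤
    (((Finset.range W).filter
      (fun s => ∀ q : ℕ, q.Prime → D < q → q ≤ Bd n0 T → ¬ bad q s)).card : ℝ) := by
  classical
  -- truncate the conditions to the primes that matter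
  obtain ⟨bad', hbad'⟩ : ∃ b : ℕ → ℕ → Prop, ∀ q s, b q s ↔
      ((q.Prime ∧ D < q ∧ q ≤ Bd n0 T) ∧ bad q s) := ⟨_, fun _ _ => Iff.rfl⟩
  have hper' : Per bad' := by
    intro q s
    rw [hbad', hbad', hper q s]
  have hnb : ∀ q, nb bad' q ≤ D := by
    intro q
    by_cases hq : q.Prime ∧ D < q ∧ q ≤ Bd n0 T
    · refine le_trans ?_ (hb q hq.1 hq.2.1 hq.2.2)
      unfold nb
      apply Finset.card_le_card
      intro s hs
      rw [Finset.mem_filter] at hs ⊢
      exact ⟨hs.1, ((hbad' q s).1 hs.2).2⟩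
    · unfold nb
      have : (Finset.range q).filter (fun s => bad' q s) = ∅ := by
        apply Finset.filter_eq_empty_iff.2
        intro s _ hs
        exact hq ((hbad' q s).1 hs).1
      rw [this]; simp
  set v : ℕ → ℝ := fun i => if i = 0 then (1 / (D + 1 : ℝ)) ^ (Bd n0 0) else (1 / 3) ^ D with hv
  set ε : ℕ → ℝ := fun i => if i = 0 then 0 else 0.2 * 0.04 ^ (T - i) with hε
  have hsum : ∑ i ∈ Finset.range (T + 1), ε i ≤ 0.9 := by
    rw [Finset.sum_range_succ']
    simp only [hε, if_true, add_zero, Nat.add_eq_zero_iff, one_ne_zero, and_false, if_false]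
    refine le_trans (le_of_eq ?_) (eps_sum T)
    apply Finset.sum_congr rfl
    intro i _
    congr 2
    omega
  have hprodv : ∏ i ∈ Finset.range (T + 1), v i =
      (1 / (D + 1 : ℝ)) ^ (Bd n0 0) * ((1 / 3) ^ D) ^ T := by
    rw [Finset.prod_range_succ']
    simp only [hv, if_true, Nat.add_eq_zero_iff, one_ne_zero, and_false, if_false,
      Finset.prod_const, Finset.card_range]
    ring
  have hmain := sieve_count (Pr D n0) (rr D n0 T) (Pr_disjoint D n0 hn0 hD) (by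
      intro t
      cases t with
      | zero => exact even_two_mul _
      | succ t =>
        simp only [rr]
        exact Even.add ⟨2 * D, by ring⟩ (even_two_mul _))
    (Pr_prime D n0 hn0 hD) bad' hper' (fun _ => D) (fun _ => by positivity)
    (fun t q _ => by exact_mod_cast hnb q)
    (fun i => D * (Bd n0 i : ℝ)) (by
      intro i
      rw [Finset.sum_const, nsmul_eq_mul, mul_comm]
      have := Pr_card D n0 hn0 hD i
      have h2 : ((Pr D n0 i).card : ℝ) ≤ (Bd n0 i : ℝ) := by exact_mod_cast this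
      exact mul_le_mul_of_nonneg_left h2 (Nat.cast_nonneg D)) v (by
      intro t
      simp only [hv]
      split_ifs <;> positivity) (by
      intro t
      simp only [hv]
      cases t with
      | zero => rw [if_pos rfl]; exact prod_Pr0_ge D n0 hn0 hD
      | succ t => rw [if_neg (by omega)]; exact prod_Pr_ge D n0 hn0 hD t) (T + 1) ε (by
      intro t q hq
      have := Pr_gt D n0 hn0 hD t q hq
      exact_mod_cast this.le) (by
      intro t ht
      cases t with
      | zero =>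
        simp only [hε, if_true, zero_mul]
        apply le_of_eq
        apply es_eq_zero
        have := Pr_card D n0 hn0 hD 0
        simp only [rr]
        omega
      | succ t =>
        simp only [hε, hv]
        rw [if_neg (by omega), if_neg (by omega)]
        have h1 := es_le (Pr D n0 (t + 1)) (fun q => D / (q : ℝ)) (fun q => by positivity)
          (rr D n0 T (t + 1) + 1)
        have h2 := sum_Pr_le D n0 hn0 t
        have hr : rr D n0 T (t + 1) + 1 = 4 * D + 1 + 2 * (T - 1 - t) := by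
          simp only [rr]; omega
        rw [hr] at h1 ⊢
        refine h1.trans ?_
        have h3 : (∑ q ∈ Pr D n0 (t + 1), D / (q : ℝ)) ^ (4 * D + 1 + 2 * (T - 1 - t)) ≤
            (0.73 * D) ^ (4 * D + 1 + 2 * (T - 1 - t)) := by
          apply pow_le_pow_left₀ _ h2
          exact Finset.sum_nonneg (fun q _ => by positivity)
        have h4 := fact_bound D (T - 1 - t)
        have h5 : T - (t + 1) = T - 1 - t := by omega
        rw [h5]
        refine le_trans ?_ h4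
        exact div_le_div_of_nonneg_right h3 (by positivity)) (by linarith) W
  rw [hprodv, PiU_Pr D n0 hn0 hD] at hmain
  have herr := err_bound D n0 T
  refine le_trans ?_ (hmain.trans (le_of_eq ?_))
  swap
  · congr 2
    ext s
    simp only [Finset.mem_filter, Finset.mem_Ioc]
    apply and_congr_right
    intro _
    constructor
    · intro h q hq h4 hqB hbad
      exact h q ⟨⟨h4, hqB⟩, hq⟩ ((hbad' q s).2 ⟨⟨hq, h4, hqB⟩, hbad⟩)
    · intro h q hq hbad
      have hb1 := (hbad' q s).1 hbad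
      exact h q hb1.1.1 hb1.1.2.1 hb1.1.2.2 hb1.2
  have h6 : (W : ℝ) * ((1 / (D + 1 : ℝ)) ^ (Bd n0 0) * ((1 / 3) ^ D) ^ T * 0.1) ≤
      (W : ℝ) * ((1 / (D + 1 : ℝ)) ^ (Bd n0 0) * ((1 / 3) ^ D) ^ T *
        (1 - ∑ i ∈ Finset.range (T + 1), ε i)) := by
    apply mul_le_mul_of_nonneg_left _ (Nat.cast_nonneg W)
    apply mul_le_mul_of_nonneg_left _ (by positivity)
    linarith
  linarith

end Pool.Agent.Lib.QuadThree
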