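import Mathlib
import Pool.Agent.Lib.QuadParity.Asym
import Pool.Agent.Lib.QuadThree.Ranges

/-!
Asymptotic form of the lower bound sieve of dimension `D`.
-/

set_option autoImplicit false

namespace Pool.Agent.Lib.QuadThree

open Finset Pool.Agent.Lib.QuadParity

open Classical in
/-- the number of `s < 2^((8D+7)*2^n)` that avoid all conditions for primes `D < q ≤ 2^(2^n)` -/
noncomputable def sifted (D : ℕ) (bad : ℕ → ℕ → Prop) (n : ℕ) : Finset ℕ :=
  (Finset.range (2 ^ ((8 * D + 7) * 2 ^ n))).filter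
    (fun s => ∀ q : ℕ, q.Prime → D < q → q ≤ 2 ^ (2 ^ n) → ¬ bad q s)

theorem mem_sifted {D : ℕ} {bad : ℕ → ℕ → Prop} {n s : ℕ} : s ∈ sifted D bad n ↔
    s < 2 ^ ((8 * D + 7) * 2 ^ n) ∧
      ∀ q : ℕ, q.Prime → D < q → q ≤ 2 ^ (2 ^ n) → ¬ bad q s := by
  classical
  unfold sifted
  rw [Finset.mem_filter, Finset.mem_range]

/-- the statement of the asymptotic sieve bound -/
def SieveBound (D N0 : ℕ) : Prop :=
  ∀ n : ℕ, N0 ≤ n → ∀ bad : ℕ → ℕ → Prop, Per bad →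
    (∀ q : ℕ, q.Prime → D < q → q ≤ 2 ^ (2 ^ n) → nb bad q ≤ D) →
    (2 : ℝ) ^ ((8 * D + 7) * 2 ^ n) ≤ 2 ^ ((2 * D + 1) * n) * ((sifted D bad n).card : ℝ)

theorem sieve_asym (D : ℕ) : ∃ N0 : ℕ, SieveBound D N0 := by
  classical
  obtain ⟨n0, hn0⟩ : ∃ n0 : ℕ, n0 = D + 14 := ⟨_, rfl⟩
  obtain ⟨B, hB⟩ : ∃ B : ℕ, B = Bd n0 0 := ⟨_, rfl⟩
  obtain ⟨C, hC⟩ : ∃ C : ℕ, C = (1 + D * B) ^ (2 * B + 1) := ⟨_, rfl⟩
  have h1 : Filter.Tendsto (fun T : ℕ => (2 : ℝ) ^ T) Filter.atTop Filter.atTop :=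
    tendsto_pow_atTop_atTop_of_one_lt (by norm_num)
  have hc0 : (0 : ℝ) < (1 / (D + 1 : ℝ)) ^ B * 0.1 := by positivity
  obtain ⟨T0, hT0⟩ := Filter.eventually_atTop.1
    (h1.eventually_ge_atTop (2 / ((1 / (D + 1 : ℝ)) ^ B * 0.1)))
  refine ⟨T0 + n0 + C + (100 * (D + 1) * (D + 1)), ?_⟩
  intro n hn bad hper hb
  obtain ⟨T, hT⟩ : ∃ T : ℕ, n = n0 + T := ⟨n - n0, by omega⟩
  have hraw := sieve_raw D n0 (by omega) (by omega) T bad hper (by
    intro q hq h4 hqB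
    apply hb q hq h4
    rw [hT]
    exact hqB) (2 ^ ((8 * D + 7) * 2 ^ n))
  have hcard : (((Finset.range (2 ^ ((8 * D + 7) * 2 ^ n))).filter
      (fun s => ∀ q : ℕ, q.Prime → D < q → q ≤ Bd n0 T → ¬ bad q s)).card : ℝ) =
      ((sifted D bad n).card : ℝ) := by
    congr 2
    ext s
    rw [mem_sifted]
    simp only [Finset.mem_filter, Finset.mem_range]
    have : Bd n0 T = 2 ^ (2 ^ n) := by unfold Bd; rw [hT]
    rw [this]
  rw [hcard, ← hB, ← hC, ← hT] at hraw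
  push_cast at hraw
  have hTT := hT0 n (by omega)
  -- main term
  have hmain : 2 * (2 : ℝ) ^ ((8 * D + 7) * 2 ^ n) ≤
      2 ^ ((2 * D + 1) * n) * ((2 : ℝ) ^ ((8 * D + 7) * 2 ^ n) *
        ((1 / (D + 1 : ℝ)) ^ B * ((1 / 3) ^ D) ^ T * 0.1)) := by
    rw [div_le_iff₀ hc0] at hTT
    have h2 : (1 : ℝ) ≤ 2 ^ (2 * D * n) * ((1 / 3) ^ D) ^ T := by
      have h3 : (1 : ℝ) ≤ 2 ^ (2 * D * T) * ((1 / 3) ^ D) ^ T := by
        rw [← pow_mul, mul_assoc 2 D T, pow_mul 2 2, ← mul_pow]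
        exact one_le_pow₀ (by norm_num)
      refine h3.trans ?_
      apply mul_le_mul_of_nonneg_right _ (by positivity)
      apply pow_le_pow_right₀ (by norm_num)
      exact Nat.mul_le_mul_left _ (by omega)
    have e : (2 : ℝ) ^ ((2 * D + 1) * n) = 2 ^ (2 * D * n) * 2 ^ n := by
      rw [← pow_add]; congr 1; ring
    calc 2 * (2 : ℝ) ^ ((8 * D + 7) * 2 ^ n) ≤
        (2 ^ n * ((1 / (D + 1 : ℝ)) ^ B * 0.1)) * (2 : ℝ) ^ ((8 * D + 7) * 2 ^ n) :=
          mul_le_mul_of_nonneg_right hTT (by positivity)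
      _ = 1 * ((2 ^ n * ((1 / (D + 1 : ℝ)) ^ B * 0.1)) * (2 : ℝ) ^ ((8 * D + 7) * 2 ^ n)) := by
          ring
      _ ≤ (2 ^ (2 * D * n) * ((1 / 3) ^ D) ^ T) *
          ((2 ^ n * ((1 / (D + 1 : ℝ)) ^ B * 0.1)) * (2 : ℝ) ^ ((8 * D + 7) * 2 ^ n)) :=
          mul_le_mul_of_nonneg_right h2 (by positivity)
      _ = _ := by rw [e]; ring
  -- error term
  have herr : (2 : ℝ) ^ ((2 * D + 1) * n) *
      ((C : ℝ) * 2 ^ ((8 * D + 6) * 2 ^ n + D * ((4 * D + 1 + 2 * T) * T))) ≤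
      (2 : ℝ) ^ ((8 * D + 7) * 2 ^ n) := by
    have hC1 : (C : ℝ) ≤ 2 ^ C := by exact_mod_cast (Nat.lt_two_pow_self).le
    calc (2 : ℝ) ^ ((2 * D + 1) * n) *
        ((C : ℝ) * 2 ^ ((8 * D + 6) * 2 ^ n + D * ((4 * D + 1 + 2 * T) * T))) ≤
        (2 : ℝ) ^ ((2 * D + 1) * n) *
          (2 ^ C * 2 ^ ((8 * D + 6) * 2 ^ n + D * ((4 * D + 1 + 2 * T) * T))) := by
          apply mul_le_mul_of_nonneg_left _ (by positivity)
          exact mul_le_mul_of_nonneg_right hC1 (by positivity)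
      _ = (2 : ℝ) ^ ((2 * D + 1) * n +
            (C + ((8 * D + 6) * 2 ^ n + D * ((4 * D + 1 + 2 * T) * T)))) := by
          rw [pow_add _ ((2 * D + 1) * n), pow_add _ C]
      _ ≤ _ := by
          apply pow_le_pow_right₀ (by norm_num)
          have h5 := cube_le_two_pow n (by nlinarith)
          have hTn : T ≤ n := by omega
          have hCn : C ≤ n := by omega
          have h100 : 100 * (D + 1) * (D + 1) ≤ n := by omega
          have h6 : D * ((4 * D + 1 + 2 * T) * T) ≤ D * ((4 * D + 1 + 2 * n) * n) := by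
            apply Nat.mul_le_mul_left
            apply Nat.mul_le_mul _ hTn
            omega
          have h7 : (100 * (D + 1) * (D + 1)) * (n * n) ≤ n ^ 3 := by
            calc (100 * (D + 1) * (D + 1)) * (n * n) ≤ n * (n * n) := Nat.mul_le_mul_right _ h100
              _ = n ^ 3 := by ring
          have hn1 : 1 ≤ n := by omega
          have h8 : n ≤ n * n := Nat.le_mul_of_pos_left _ hn1
          have h9 : (2 * D + 1) * n + (n + D * ((4 * D + 1 + 2 * n) * n)) ≤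
              (100 * (D + 1) * (D + 1)) * (n * n) := by
            have e1 : (2 * D + 1) * n + (n + D * ((4 * D + 1 + 2 * n) * n)) =
                (4 * D * D + 3 * D + 2) * n + 2 * D * (n * n) := by ring
            rw [e1]
            have h10 : (4 * D * D + 3 * D + 2) * n ≤ (4 * D * D + 3 * D + 2) * (n * n) :=
              Nat.mul_le_mul_left _ h8
            refine (Nat.add_le_add_right h10 _).trans ?_
            rw [← add_mul]
            apply Nat.mul_le_mul_right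
            nlinarith
          have e2 : (8 * D + 7) * 2 ^ n = (8 * D + 6) * 2 ^ n + 2 ^ n := by ring
          rw [e2]
          omega
  have h9 : (0 : ℝ) < 2 ^ ((2 * D + 1) * n) := by positivity
  have h10 := mul_le_mul_of_nonneg_left hraw h9.le
  rw [mul_sub] at h10
  linarith

end Pool.Agent.Lib.QuadThree
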