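import Pool.Agent.Lib.MP_325d88_nt.PNTAP

/-!
Primes in arithmetic progressions in dyadic intervals: for all large `x` there are at least
`x / (2 φ(m) log x)` primes `p ≡ a mod m` in `(x, 2x]`.
-/

set_option autoImplicit false

namespace Pool.Agent.Lib.QuadThree

open Finset Filter Topology

theorem primes_dyadic (m : ℕ) (hm : 0 < m) (a : ℕ) (ha : Nat.Coprime a m) :
    ∃ x0 : ℕ, 2 ≤ x0 ∧ ∀ x : ℕ, x0 ≤ x →
      (x : ℝ) / (2 * (Nat.totient m : ℝ) * Real.log x) ≤
        (((Finset.Ioc x (2 * x)).filter (fun p => p.Prime ∧ p ≡ a [MOD m])).card : ℝ) := by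
  have hφ : (0 : ℝ) < (Nat.totient m : ℝ) := by exact_mod_cast Nat.totient_pos.2 hm
  have h := Pool.Agent.MP_325d88_nt.theta_ap m hm a ha
  obtain ⟨c, hc⟩ : ∃ c : ℝ, c = 1 / (Nat.totient m : ℝ) := ⟨_, rfl⟩
  rw [← hc] at h
  have hc0 : 0 < c := by rw [hc]; positivity
  have h1 := h.eventually_const_lt (show c * (15 / 16) < c by linarith)
  have h2 := h.eventually_lt_const (show c < c * (17 / 16) by linarith)
  have h3 : Tendsto (fun x : ℕ => Real.log (x : ℝ)) atTop atTop :=
    Real.tendsto_log_atTop.comp tendsto_natCast_atTop_atTop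
  obtain ⟨x1, hx1⟩ := eventually_atTop.1 h1
  obtain ⟨x2, hx2⟩ := eventually_atTop.1 h2
  obtain ⟨x3, hx3⟩ := eventually_atTop.1 (h3.eventually_ge_atTop 2)
  refine ⟨x1 + x2 + x3 + 2, by omega, ?_⟩
  intro x hx
  have hxpos : (0 : ℝ) < x := by
    have : 0 < x := by omega
    exact_mod_cast this
  have a1 := hx1 (2 * x) (by omega)
  have a2 := hx2 x (by omega)
  have a3 := hx3 x (by omega)
  push_cast at a1
  rw [lt_div_iff₀ (by positivity)] at a1
  rw [div_lt_iff₀ hxpos] at a2
  obtain ⟨P, hP⟩ : ∃ P : Finset ℕ, P = (Finset.Ioc x (2 * x)).filter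
    (fun p => p.Prime ∧ p ≡ a [MOD m]) := ⟨_, rfl⟩
  rw [← hP]
  have hsplit : ∑ p ∈ Pool.Agent.MP_325d88_nt.primesAP m a (2 * x), Real.log p =
      ∑ p ∈ Pool.Agent.MP_325d88_nt.primesAP m a x, Real.log p + ∑ p ∈ P, Real.log p := by
    rw [← Finset.sum_union]
    · congr 1
      ext p
      rw [hP]
      simp only [Pool.Agent.MP_325d88_nt.primesAP, Finset.mem_filter, Finset.mem_range,
        Finset.mem_union, Finset.mem_Ioc]
      constructor
      · rintro ⟨h4, h5⟩
        by_cases h6 : p ≤ x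
        · left; exact ⟨by omega, h5⟩
        · right; exact ⟨⟨by omega, by omega⟩, h5⟩
      · rintro (⟨h4, h5⟩ | ⟨⟨h4, h4'⟩, h5⟩)
        · exact ⟨by omega, h5⟩
        · exact ⟨by omega, h5⟩
    · rw [Finset.disjoint_left]
      intro p hp hp'
      rw [hP] at hp'
      simp only [Pool.Agent.MP_325d88_nt.primesAP, Finset.mem_filter, Finset.mem_range,
        Finset.mem_Ioc] at hp hp'
      omega
  have hle : ∑ p ∈ P, Real.log p ≤ P.card * (Real.log 2 + Real.log x) := by
    rw [← nsmul_eq_mul]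
    apply Finset.sum_le_card_nsmul
    intro p hp
    rw [hP, Finset.mem_filter, Finset.mem_Ioc] at hp
    rw [← Real.log_mul (by norm_num) hxpos.ne']
    apply Real.log_le_log
    · exact_mod_cast hp.2.1.pos
    · exact_mod_cast hp.1.2
  rw [hsplit] at a1
  have hlog2 := Real.log_two_lt_d9
  have hcard0 : (0 : ℝ) ≤ P.card := Nat.cast_nonneg _
  have h5 : Real.log 2 + Real.log x ≤ 13 / 8 * Real.log x := by linarith
  have h6 : c * (13 / 16) * x ≤ P.card * (13 / 8 * Real.log x) := by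
    have h7 := mul_le_mul_of_nonneg_left h5 hcard0
    nlinarith
  have h8 : (x : ℝ) / (2 * (Nat.totient m : ℝ) * Real.log x) = c * x / (2 * Real.log x) := by
    rw [hc]; field_simp
  rw [h8, div_le_iff₀ (by linarith)]
  linarith

end Pool.Agent.Lib.QuadThree
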