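import Mathlib
import Pool.Agent.Lib.QuadParity.Roots

/-!
Algebra of the monic quadratic polynomial `x^2 + b x + c` and local choices.
-/

set_option autoImplicit false

namespace Pool.Agent.Lib.QuadThree

open Finset

/-- the monic quadratic polynomial -/
def mf (b c x : ℤ) : ℤ := x ^ 2 + b * x + c

theorem mf_add (b c x y : ℤ) : mf b c (x + y) = mf b c x + y * (2 * x + b + y) := by
  unfold mf; ring

theorem mf_sub (b c x y : ℤ) : mf b c x - mf b c y = (x - y) * (x + y + b) := by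
  unfold mf; ring

theorem mf_pair (b c x d l : ℤ) (h : mf b c x = d * l) :
    mf b c (x + d) = d * (l + 2 * x + b + d) ∧ mf b c (x + l) = l * (l + 2 * x + b + d) := by
  constructor
  · rw [mf_add, h]; ring
  · rw [mf_add, h]; ring

theorem mf_dvd_of (b c m x y : ℤ) (h : m ∣ x - y) : m ∣ mf b c x ↔ m ∣ mf b c y := by
  have h1 : m ∣ mf b c x - mf b c y := by rw [mf_sub]; exact Dvd.dvd.mul_right h _
  exact (Int.dvd_iff_dvd_of_dvd_sub h1)

theorem pow_dvd_split (p : ℕ) (hp : p.Prime) (s : ℕ) (x y : ℤ)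
    (h : (p : ℤ) ^ (2 * s) ∣ x * y) : (p : ℤ) ^ s ∣ x ∨ (p : ℤ) ^ s ∣ y := by
  have hpz : Prime (p : ℤ) := Nat.prime_iff_prime_int.1 hp
  by_contra hcon
  push Not at hcon
  obtain ⟨h1, h2⟩ := hcon
  rw [pow_dvd_iff_le_emultiplicity, not_le] at h1 h2
  rw [pow_dvd_iff_le_emultiplicity, emultiplicity_mul hpz] at h
  obtain ⟨u, hu⟩ := ENat.ne_top_iff_exists.1 (ne_top_of_lt h1)
  obtain ⟨v, hv⟩ := ENat.ne_top_iff_exists.1 (ne_top_of_lt h2)
  rw [← hu] at h1 h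
  rw [← hv] at h2 h
  have h1' : u < s := by exact_mod_cast h1
  have h2' : v < s := by exact_mod_cast h2
  have h' : 2 * s ≤ u + v := by exact_mod_cast h
  omega

theorem three_lift (b c : ℤ) (p : ℕ) (hp : p.Prime) (s : ℕ) (x1 x2 x3 : ℤ)
    (h12 : ¬ (p : ℤ) ^ s ∣ x1 - x2) (h13 : ¬ (p : ℤ) ^ s ∣ x1 - x3)
    (h23 : ¬ (p : ℤ) ^ s ∣ x2 - x3) (h1 : (p : ℤ) ^ (2 * s) ∣ mf b c x1)
    (h2 : (p : ℤ) ^ (2 * s) ∣ mf b c x2) (h3 : (p : ℤ) ^ (2 * s) ∣ mf b c x3) : False := by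
  have e12 := dvd_sub h1 h2
  have e13 := dvd_sub h1 h3
  rw [mf_sub] at e12 e13
  have f12 := (pow_dvd_split p hp s _ _ e12).resolve_left h12
  have f13 := (pow_dvd_split p hp s _ _ e13).resolve_left h13
  apply h23
  have := dvd_sub f12 f13
  have e : x1 + x2 + b - (x1 + x3 + b) = x2 - x3 := by ring
  rwa [e] at this

/-- at most two roots modulo a prime -/
theorem two_roots (b c : ℤ) (p : ℕ) (hp : p.Prime) (A β : ℤ) (hA : ¬ (p : ℤ) ∣ A) :
    open Classical in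
    ((Finset.range p).filter (fun s : ℕ => (p : ℤ) ∣ mf b c (β + A * s))).card ≤ 2 := by
  classical
  have hpz : Prime (p : ℤ) := Nat.prime_iff_prime_int.1 hp
  by_contra hcon
  push Not at hcon
  obtain ⟨u, hu, v, hv, w, hw, huv, huw, hvw⟩ := Finset.two_lt_card.1 hcon
  rw [Finset.mem_filter, Finset.mem_range] at hu hv hw
  have key : ∀ u v : ℕ, u < p → v < p → u ≠ v → ¬ (p : ℤ) ∣ (β + A * u) - (β + A * v) := by
    intro u v hu hv huv hd
    have e : (β + A * (u : ℤ)) - (β + A * v) = A * ((u : ℤ) - v) := by ring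
    rw [e] at hd
    have h1 := (hpz.dvd_or_dvd hd).resolve_left hA
    apply huv
    have h2 : (u : ℤ) ≡ v [ZMOD p] := (Int.modEq_iff_dvd.2 (by
      have := (dvd_neg (α := ℤ)).2 h1
      rwa [neg_sub] at this))
    have h3 : u ≡ v [MOD p] := (Int.natCast_modEq_iff).1 h2
    exact Nat.ModEq.eq_of_lt_of_lt h3 hu hv
  have e1 := dvd_sub hu.2 hv.2
  have e2 := dvd_sub hu.2 hw.2
  rw [mf_sub] at e1 e2
  have f1 := (hpz.dvd_or_dvd e1).resolve_left (key u v hu.1 hv.1 huv)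
  have f2 := (hpz.dvd_or_dvd e2).resolve_left (key u w hu.1 hw.1 huw)
  have := dvd_sub f1 f2
  have e : β + A * (u : ℤ) + (β + A * v) + b - (β + A * u + (β + A * w) + b) =
    (β + A * v) - (β + A * w) := by ring
  rw [e] at this
  exact key v w hv.1 hw.1 hvw this

/-- choice of a residue modulo a power of `p` -/
theorem local_choice (b c : ℤ) (p : ℕ) (hp : p.Prime) (s M : ℕ) (hs : 2 * M < p ^ s) (d : ℤ) :
    ∃ x : ℤ, ∀ i : ℕ, i < M → ¬ (p : ℤ) ^ (2 * s) ∣ mf b c (x + i * d) := by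
  classical
  set R := Finset.range (p ^ s) with hR
  set Bad : ℕ → Finset ℕ := fun i => R.filter
    (fun u : ℕ => (p : ℤ) ^ (2 * s) ∣ mf b c ((u : ℤ) + i * d)) with hBad
  have hB : ∀ i, (Bad i).card ≤ 2 := by
    intro i
    by_contra hcon
    push Not at hcon
    obtain ⟨u, hu, v, hv, w, hw, huv, huw, hvw⟩ := Finset.two_lt_card.1 hcon
    simp only [hBad, hR, Finset.mem_filter, Finset.mem_range] at hu hv hw
    have key : ∀ u v : ℕ, u < p ^ s → v < p ^ s → u ≠ v →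
        ¬ (p : ℤ) ^ s ∣ ((u : ℤ) + i * d) - ((v : ℤ) + i * d) := by
      intro u v hu hv huv hd
      have e : ((u : ℤ) + i * d) - ((v : ℤ) + i * d) = (u : ℤ) - v := by ring
      rw [e] at hd
      apply huv
      have h2 : (u : ℤ) ≡ v [ZMOD ((p ^ s : ℕ) : ℤ)] := (Int.modEq_iff_dvd.2 (by
        have := (dvd_neg (α := ℤ)).2 hd
        rw [neg_sub] at this
        exact_mod_cast this))
      have h3 : u ≡ v [MOD (p ^ s)] := (Int.natCast_modEq_iff).1 h2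
      exact Nat.ModEq.eq_of_lt_of_lt h3 hu hv
    exact three_lift b c p hp s _ _ _ (key u v hu.1 hv.1 huv) (key u w hu.1 hw.1 huw)
      (key v w hv.1 hw.1 hvw) hu.2 hv.2 hw.2
  have hcard : ((Finset.range M).biUnion Bad).card ≤ 2 * M := by
    refine Finset.card_biUnion_le.trans ?_
    calc ∑ i ∈ Finset.range M, (Bad i).card ≤ ∑ i ∈ Finset.range M, 2 :=
          Finset.sum_le_sum (fun i _ => hB i)
      _ = 2 * M := by rw [Finset.sum_const, Finset.card_range, smul_eq_mul, mul_comm]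
  have hlt : ((Finset.range M).biUnion Bad).card < R.card := by
    rw [hR, Finset.card_range]; omega
  obtain ⟨u, hu, hu'⟩ := Finset.exists_mem_notMem_of_card_lt_card hlt
  refine ⟨u, ?_⟩
  intro i hi hd
  apply hu'
  rw [Finset.mem_biUnion]
  exact ⟨i, Finset.mem_range.2 hi, Finset.mem_filter.2 ⟨hu, hd⟩⟩

/-- Hensel lifting -/
theorem hensel (b c : ℤ) (q : ℕ) (hq : q.Prime) (t0 : ℤ) (ht0 : (q : ℤ) ∣ mf b c t0)
    (hΔ : ¬ (q : ℤ) ∣ b ^ 2 - 4 * c) (n : ℕ) :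
    ∃ x : ℤ, (q : ℤ) ^ (n + 1) ∣ mf b c x ∧ ¬ (q : ℤ) ∣ 2 * x + b := by
  have hqz : Prime (q : ℤ) := Nat.prime_iff_prime_int.1 hq
  have hder : ∀ x : ℤ, (q : ℤ) ∣ mf b c x → ¬ (q : ℤ) ∣ 2 * x + b := by
    intro x hx hd
    apply hΔ
    have e : b ^ 2 - 4 * c = (2 * x + b) * (2 * x + b) - 4 * mf b c x := by unfold mf; ring
    rw [e]
    exact dvd_sub (Dvd.dvd.mul_right hd _) (Dvd.dvd.mul_left hx _)
  induction n with
  | zero => exact ⟨t0, by simpa using ht0, hder t0 ht0⟩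
  | succ n ih =>
    obtain ⟨x, hx, hx'⟩ := ih
    obtain ⟨e, he⟩ := hx
    have hcop : IsCoprime (2 * x + b) (q : ℤ) := by
      rw [isCoprime_comm]
      exact (hqz.coprime_iff_not_dvd).2 hx'
    obtain ⟨u, v, huv⟩ := hcop
    refine ⟨x + (q : ℤ) ^ (n + 1) * (-(e * u)), ?_, ?_⟩
    · rw [mf_add, he]
      refine ⟨e * v + (q : ℤ) ^ n * (e * u) ^ 2, ?_⟩
      have e1 : (q : ℤ) ^ (n + 1 + 1) = (q : ℤ) ^ (n + 1) * q := by ring
      have e2 : (q : ℤ) ^ (n + 1) = (q : ℤ) ^ n * q := by ring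
      rw [e1]
      linear_combination (-(q : ℤ) ^ (n + 1) * e) * huv + (q : ℤ) ^ (n + 1) * (e * u) ^ 2 * e2
    · intro hd
      apply hx'
      have e2 : (q : ℤ) ^ (n + 1) = q * (q : ℤ) ^ n := by ring
      have h1 : (q : ℤ) ∣ 2 * ((q : ℤ) ^ (n + 1) * (-(e * u))) := by
        rw [e2]
        exact ⟨2 * ((q : ℤ) ^ n * (-(e * u))), by ring⟩
      have := dvd_sub hd h1
      have e3 : 2 * (x + (q : ℤ) ^ (n + 1) * (-(e * u))) + b -
        2 * ((q : ℤ) ^ (n + 1) * (-(e * u))) = 2 * x + b := by ring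
      rwa [e3] at this

/-- exact valuation -/
theorem hensel_exact (b c : ℤ) (q : ℕ) (hq : q.Prime) (t0 : ℤ) (ht0 : (q : ℤ) ∣ mf b c t0)
    (hΔ : ¬ (q : ℤ) ∣ b ^ 2 - 4 * c) (n : ℕ) :
    ∃ x : ℤ, (q : ℤ) ^ (n + 1) ∣ mf b c x ∧ ¬ (q : ℤ) ^ (n + 2) ∣ mf b c x ∧
      ¬ (q : ℤ) ∣ 2 * x + b := by
  have hqz : Prime (q : ℤ) := Nat.prime_iff_prime_int.1 hq
  obtain ⟨x, hx, hx'⟩ := hensel b c q hq t0 ht0 hΔ n
  by_cases h : (q : ℤ) ^ (n + 2) ∣ mf b c x
  · refine ⟨x + (q : ℤ) ^ (n + 1), ?_, ?_, ?_⟩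
    · rw [mf_add]
      exact dvd_add hx (Dvd.intro _ rfl)
    · intro hd
      rw [mf_add] at hd
      have h1 := (dvd_add_right h).1 hd
      have e1 : (q : ℤ) ^ (n + 2) = (q : ℤ) ^ (n + 1) * q := by ring
      rw [e1] at h1
      have h2 := (mul_dvd_mul_iff_left (pow_ne_zero (n + 1) hqz.ne_zero)).1 h1
      apply hx'
      have h3 : (q : ℤ) ∣ (q : ℤ) ^ (n + 1) := dvd_pow_self _ (by omega)
      exact (dvd_add_left h3).1 h2
    · intro hd
      apply hx'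
      have h3 : (q : ℤ) ∣ 2 * (q : ℤ) ^ (n + 1) :=
        Dvd.dvd.mul_left (dvd_pow_self _ (by omega)) 2
      have e : 2 * (x + (q : ℤ) ^ (n + 1)) + b = (2 * x + b) + 2 * (q : ℤ) ^ (n + 1) := by ring
      rw [e] at hd
      exact (dvd_add_left h3).1 hd
  · exact ⟨x, hx, h, hx'⟩

/-- valuations of the values at the neighbours -/
theorem val_neighbour (b c : ℤ) (q : ℕ) (hq : q.Prime) (x : ℤ) (k : ℤ) (hk : ¬ (q : ℤ) ∣ k)
    (h6 : (q : ℤ) ^ 6 ∣ mf b c x) (h7 : ¬ (q : ℤ) ^ 7 ∣ mf b c x) (hder : ¬ (q : ℤ) ∣ 2 * x + b)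
    (j : ℕ) (hj1 : 1 ≤ j) (hj3 : j ≤ 3) (i : ℕ) (hi : i ≤ q ^ 2) :
    ¬ (q : ℤ) ^ 7 ∣ mf b c (x + i * (k * (q : ℤ) ^ j)) := by
  have hqz : Prime (q : ℤ) := Nat.prime_iff_prime_int.1 hq
  rcases Nat.eq_zero_or_pos i with h0 | h0
  · subst h0; simpa using h7
  intro hd
  have hd6 : (q : ℤ) ^ 6 ∣ mf b c (x + i * (k * (q : ℤ) ^ j)) :=
    (pow_dvd_pow _ (by norm_num)).trans hd
  rw [mf_add] at hd6
  have h1 := (dvd_add_right h6).1 hd6
  have hunit : ¬ (q : ℤ) ∣ 2 * x + b + i * (k * (q : ℤ) ^ j) := by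
    intro h
    apply hder
    have h3 : (q : ℤ) ∣ i * (k * (q : ℤ) ^ j) :=
      Dvd.dvd.mul_left (Dvd.dvd.mul_left (dvd_pow_self _ (by omega)) _) _
    exact (dvd_add_left h3).1 h
  have hcop : IsCoprime ((q : ℤ) ^ 6) (2 * x + b + i * (k * (q : ℤ) ^ j)) :=
    IsCoprime.pow_left ((hqz.coprime_iff_not_dvd).2 hunit)
  have h2 := hcop.dvd_of_dvd_mul_right h1
  have hcopk : IsCoprime ((q : ℤ) ^ 3) k := IsCoprime.pow_left ((hqz.coprime_iff_not_dvd).2 hk)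
  have h3 : (q : ℤ) ^ 3 * (q : ℤ) ^ j ∣ i * k * (q : ℤ) ^ j := by
    rw [← pow_add]
    refine (pow_dvd_pow _ (by omega)).trans (h2.trans (dvd_of_eq (by ring)))
  have h4 := (mul_dvd_mul_iff_right (pow_ne_zero j hqz.ne_zero)).1 h3
  have h5 := hcopk.dvd_of_dvd_mul_right h4
  have h6 : q ^ 3 ∣ i := by exact_mod_cast h5
  have h7 := Nat.le_of_dvd h0 h6
  have h8 : q ^ 2 < q ^ 3 := Nat.pow_lt_pow_right hq.one_lt (by norm_num)
  omega

/-- Chinese remainder theorem for a finite set of moduli -/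
theorem crt_int (S : Finset ℕ) (m : ℕ → ℤ) (r : ℕ → ℤ)
    (hm : ∀ i ∈ S, ∀ j ∈ S, i ≠ j → IsCoprime (m i) (m j)) :
    ∃ x : ℤ, ∀ i ∈ S, m i ∣ x - r i := by
  classical
  induction S using Finset.induction with
  | empty => exact ⟨0, by simp⟩
  | insert a S ha ih =>
    obtain ⟨x, hx⟩ := ih (fun i hi j hj hij =>
      hm i (Finset.mem_insert_of_mem hi) j (Finset.mem_insert_of_mem hj) hij)
    have hcop : IsCoprime (∏ i ∈ S, m i) (m a) := by
      apply IsCoprime.prod_left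
      intro i hi
      exact hm i (Finset.mem_insert_of_mem hi) a (Finset.mem_insert_self _ _)
        (by rintro rfl; exact ha hi)
    obtain ⟨u, v, huv⟩ := hcop
    refine ⟨x + (∏ i ∈ S, m i) * (u * (r a - x)), ?_⟩
    intro i hi
    rcases Finset.mem_insert.1 hi with h | h
    · subst h
      refine ⟨(x - r i) * v, ?_⟩
      linear_combination (-(x - r i)) * huv
    · have h1 := hx i h
      have h2 : m i ∣ (∏ i ∈ S, m i) * (u * (r a - x)) :=
        Dvd.dvd.mul_right (Finset.dvd_prod_of_mem m h) _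
      have e : x + (∏ i ∈ S, m i) * (u * (r a - x)) - r i =
        (x - r i) + (∏ i ∈ S, m i) * (u * (r a - x)) := by ring
      rw [e]
      exact dvd_add h1 h2

end Pool.Agent.Lib.QuadThree
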