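import Mathlib
import Pool.Agent.Lib.QuadThree.Alg
import Pool.Agent.Lib.QuadThree.Asym

/-!
The residue class attached to a prime `k`, and the family of conditions for the sieve.
-/

set_option autoImplicit false

namespace Pool.Agent.Lib.QuadThree

open Finset Pool.Agent.Lib.QuadParity

/-- sieve dimension -/
def Dm (q : ℕ) : ℕ := 2 * (q ^ 2 + 1)

/-- exponent for the small primes -/
def Ex (q : ℕ) : ℕ := 2 * Dm q + 7

/-- modulus for the small primes -/
def Gm (q : ℕ) : ℕ := ∏ p ∈ (Finset.Icc 1 (Dm q)).filter Nat.Prime, p ^ Ex q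

theorem Gm_pos (q : ℕ) : 0 < Gm q := by
  unfold Gm
  apply Finset.prod_pos
  intro p hp
  exact pow_pos (Finset.mem_filter.1 hp).2.pos _

theorem pow_dvd_Gm (q p : ℕ) (hp : p.Prime) (hpD : p ≤ Dm q) : p ^ Ex q ∣ Gm q := by
  unfold Gm
  exact Finset.dvd_prod_of_mem (fun p => p ^ Ex q)
    (Finset.mem_filter.2 ⟨Finset.mem_Icc.2 ⟨hp.one_le, hpD⟩, hp⟩)

theorem q_le_Dm (q : ℕ) : q ≤ Dm q := by unfold Dm; nlinarith

theorem not_dvd_Gm (q p : ℕ) (hp : p.Prime) (hpD : Dm q < p) : ¬ p ∣ Gm q := by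
  intro h
  unfold Gm at h
  obtain ⟨r, hr, hpr⟩ := (hp.prime.dvd_finset_prod_iff _).1 h
  rw [Finset.mem_filter, Finset.mem_Icc] at hr
  have h1 := hp.dvd_of_dvd_pow hpr
  have h2 := (Nat.prime_dvd_prime_iff_eq hp hr.2).1 h1
  omega

/-- the data attached to a prime `k` -/
def DataK (b c : ℤ) (q k j : ℕ) (x0 : ℤ) : Prop :=
  0 ≤ x0 ∧ x0 < k * Gm q ∧ (k : ℤ) ∣ mf b c x0 ∧ (q : ℤ) ^ 6 ∣ mf b c x0 ∧
    ∀ p : ℕ, p.Prime → p ≤ Dm q → ∀ i : ℕ, i ≤ q ^ 2 →
      ¬ (p : ℤ) ^ Ex q ∣ mf b c (x0 + i * (k * (q : ℤ) ^ j))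

theorem dataK_exists (b c : ℤ) (q : ℕ) (hq : q.Prime) (t0 : ℤ) (ht0 : (q : ℤ) ∣ mf b c t0)
    (hΔ : ¬ (q : ℤ) ∣ b ^ 2 - 4 * c) (k : ℕ) (hk : k.Prime) (hkD : Dm q < k) (ρ : ℤ)
    (hρ : (k : ℤ) ∣ mf b c ρ) (j : ℕ) (hj1 : 1 ≤ j) (hj3 : j ≤ 3) :
    ∃ x0 : ℤ, DataK b c q k j x0 := by
  classical
  have hqD := q_le_Dm q
  have hkz : Prime (k : ℤ) := Nat.prime_iff_prime_int.1 hk
  have hqk : ¬ (q : ℤ) ∣ (k : ℤ) := by
    intro h
    have h1 : q ∣ k := by exact_mod_cast h
    have := (Nat.prime_dvd_prime_iff_eq hq hk).1 h1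
    omega
  -- residues
  have hres : ∀ p : ℕ, ∃ r : ℤ, p.Prime → p ≤ Dm q →
      (p = q → (q : ℤ) ^ 6 ∣ mf b c r) ∧
      ∀ i : ℕ, i ≤ q ^ 2 → ¬ (p : ℤ) ^ Ex q ∣ mf b c (r + i * (k * (q : ℤ) ^ j)) := by
    intro p
    by_cases hpq : p = q
    · subst hpq
      obtain ⟨r, h6, h7, hder⟩ := hensel_exact b c p hq t0 ht0 hΔ 5
      refine ⟨r, fun _ _ => ⟨fun _ => h6, ?_⟩⟩
      intro i hi hd
      have h8 := val_neighbour b c p hq r k hqk h6 h7 hder j hj1 hj3 i hi
      apply h8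
      refine (pow_dvd_pow _ ?_).trans hd
      unfold Ex; omega
    · by_cases hp : p.Prime
      · obtain ⟨r, hr⟩ := local_choice b c p hp (Dm q) (q ^ 2 + 1) (by
          have h1 : Dm q < 2 ^ Dm q := Nat.lt_two_pow_self
          have h2 : 2 ^ Dm q ≤ p ^ Dm q := Nat.pow_le_pow_left hp.two_le _
          have h3 : Dm q = 2 * (q ^ 2 + 1) := rfl
          omega) (k * (q : ℤ) ^ j)
        refine ⟨r, fun _ _ => ⟨fun h => absurd h hpq, ?_⟩⟩
        intro i hi hd
        apply hr i (by omega)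
        refine (pow_dvd_pow _ ?_).trans hd
        unfold Ex; omega
      · exact ⟨0, fun h => absurd h hp⟩
  choose r hr using hres
  set S := insert k ((Finset.Icc 1 (Dm q)).filter Nat.Prime) with hS
  set m : ℕ → ℤ := fun p => if p = k then (k : ℤ) else (p : ℤ) ^ Ex q with hm
  set r' : ℕ → ℤ := fun p => if p = k then ρ else r p with hr'
  have hprime : ∀ p ∈ S, p.Prime := by
    intro p hp
    rcases Finset.mem_insert.1 hp with h | h
    · rw [h]; exact hk
    · exact (Finset.mem_filter.1 h).2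
  obtain ⟨x, hx⟩ := crt_int S m r' (by
    intro p hp p' hp' hne
    have h1 : IsCoprime (p : ℤ) (p' : ℤ) := by
      rw [Nat.isCoprime_iff_coprime]
      exact (Nat.coprime_primes (hprime p hp) (hprime p' hp')).2 hne
    simp only [hm]
    by_cases h2 : p = k
    · rw [if_pos h2]
      by_cases h3 : p' = k
      · exact absurd (h2.trans h3.symm) hne
      · rw [if_neg h3, ← h2]
        exact h1.pow_right
    · rw [if_neg h2]
      by_cases h3 : p' = k
      · rw [if_pos h3, ← h3]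
        exact h1.pow_left
      · rw [if_neg h3]
        exact h1.pow)
  have hGpos := Gm_pos q
  have hkG : (0 : ℤ) < k * Gm q := by
    have := hk.pos
    positivity
  refine ⟨x % (k * Gm q), Int.emod_nonneg _ hkG.ne', Int.emod_lt_of_pos _ hkG, ?_, ?_, ?_⟩
  all_goals
    obtain ⟨x0, hx0⟩ : ∃ x0 : ℤ, x0 = x % (k * Gm q) := ⟨_, rfl⟩
    rw [← hx0]
    have hsub : ((k : ℤ) * Gm q) ∣ x0 - x := by
      rw [hx0]
      refine ⟨-(x / (k * Gm q)), ?_⟩
      have := Int.emod_add_mul_ediv x (k * Gm q)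
      linear_combination this
  · have h1 := hx k (Finset.mem_insert_self _ _)
    simp only [hm, hr', if_true] at h1
    rw [mf_dvd_of b c k x0 ρ]
    · exact hρ
    · have := dvd_add ((Dvd.intro _ rfl).trans hsub) h1
      simpa using this
  · have hqS : q ∈ S := Finset.mem_insert_of_mem
      (Finset.mem_filter.2 ⟨Finset.mem_Icc.2 ⟨hq.one_le, hqD⟩, hq⟩)
    have hqne : q ≠ k := by omega
    have h1 := hx q hqS
    simp only [hm, hr', if_neg hqne] at h1
    have h2 : (q : ℤ) ^ Ex q ∣ x0 - x := by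
      refine dvd_trans ?_ hsub
      apply Dvd.dvd.mul_left
      exact_mod_cast pow_dvd_Gm q q hq hqD
    have h3 := dvd_add h2 h1
    have h4 : (q : ℤ) ^ Ex q ∣ x0 - r q := by simpa using h3
    rw [mf_dvd_of b c _ x0 (r q)]
    · exact (hr q hq hqD).1 rfl
    · refine (pow_dvd_pow _ ?_).trans h4
      unfold Ex; omega
  · intro p hp hpD i hi
    have hpS : p ∈ S := Finset.mem_insert_of_mem
      (Finset.mem_filter.2 ⟨Finset.mem_Icc.2 ⟨hp.one_le, hpD⟩, hp⟩)
    have hpne : p ≠ k := by omega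
    have h1 := hx p hpS
    simp only [hm, hr', if_neg hpne] at h1
    have h2 : (p : ℤ) ^ Ex q ∣ x0 - x := by
      refine dvd_trans ?_ hsub
      apply Dvd.dvd.mul_left
      exact_mod_cast pow_dvd_Gm q p hp hpD
    have h3 := dvd_add h2 h1
    have h4 : (p : ℤ) ^ Ex q ∣ x0 - r p := by simpa using h3
    rw [mf_dvd_of b c _ (x0 + i * (k * (q : ℤ) ^ j)) (r p + i * (k * (q : ℤ) ^ j))]
    · exact (hr p hp hpD).2 i hi
    · have e : x0 + i * (k * (q : ℤ) ^ j) - (r p + i * (k * (q : ℤ) ^ j)) = x0 - r p := by ring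
      rw [e]; exact h4

/-- the argument attached to `k`, `s` and `i` -/
def Xs (q k j : ℕ) (x0 : ℤ) (s i : ℕ) : ℤ := x0 + k * Gm q * (s + 1) + i * (k * (q : ℤ) ^ j)

/-- the family of conditions to be avoided -/
def badk (b c : ℤ) (q k j : ℕ) (x0 : ℤ) (p s : ℕ) : Prop :=
  (p : ℤ) ∣ ∏ i ∈ Finset.range (q ^ 2 + 1), mf b c (Xs q k j x0 s i)

theorem per_badk (b c : ℤ) (q k j : ℕ) (x0 : ℤ) : Per (badk b c q k j x0) := by
  intro p s
  unfold badk
  have h : ((s : ℕ) : ℤ) = p * ((s / p : ℕ) : ℤ) + ((s % p : ℕ) : ℤ) := by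
    exact_mod_cast (Nat.div_add_mod s p).symm
  have h1 : ∀ i : ℕ, (p : ℤ) ∣ mf b c (Xs q k j x0 s i) - mf b c (Xs q k j x0 (s % p) i) := by
    intro i
    rw [mf_sub]
    apply Dvd.dvd.mul_right
    unfold Xs
    rw [h]
    exact ⟨k * Gm q * ((s / p : ℕ) : ℤ), by push_cast; ring⟩
  have h2 : ∀ i : ℕ, mf b c (Xs q k j x0 s i) ≡ mf b c (Xs q k j x0 (s % p) i) [ZMOD p] := by
    intro i
    rw [Int.modEq_iff_dvd]
    have := (dvd_neg (α := ℤ)).2 (h1 i)
    rwa [neg_sub] at this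
  have h3 : (∏ i ∈ Finset.range (q ^ 2 + 1), mf b c (Xs q k j x0 s i)) ≡
      (∏ i ∈ Finset.range (q ^ 2 + 1), mf b c (Xs q k j x0 (s % p) i)) [ZMOD p] := by
    generalize Finset.range (q ^ 2 + 1) = R
    classical
    induction R using Finset.induction with
    | empty => simp
    | insert a R ha ih =>
      rw [Finset.prod_insert ha, Finset.prod_insert ha]
      exact (h2 a).mul ih
  exact h3.dvd_iff

theorem nb_badk (b c : ℤ) (q k j : ℕ) (x0 : ℤ) (p : ℕ) (hp : p.Prime) (hpD : Dm q < p)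
    (hpk : ¬ p ∣ k) : nb (badk b c q k j x0) p ≤ Dm q := by
  classical
  have hpz : Prime (p : ℤ) := Nat.prime_iff_prime_int.1 hp
  have hA : ¬ (p : ℤ) ∣ (k : ℤ) * Gm q := by
    intro h
    rcases hpz.dvd_or_dvd h with h | h
    · exact hpk (by exact_mod_cast h)
    · exact not_dvd_Gm q p hp hpD (by exact_mod_cast h)
  unfold nb
  have hsub : (Finset.range p).filter (fun s => badk b c q k j x0 p s) ⊆
      (Finset.range (q ^ 2 + 1)).biUnion (fun i => (Finset.range p).filter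
        (fun s : ℕ => (p : ℤ) ∣ mf b c (Xs q k j x0 0 i + (k * Gm q) * s))) := by
    intro s hs
    rw [Finset.mem_filter] at hs
    unfold badk at hs
    obtain ⟨i, hi, hd⟩ := (hpz.dvd_finset_prod_iff _).1 hs.2
    rw [Finset.mem_biUnion]
    refine ⟨i, hi, ?_⟩
    rw [Finset.mem_filter]
    refine ⟨hs.1, ?_⟩
    have e : Xs q k j x0 0 i + (k * Gm q) * s = Xs q k j x0 s i := by
      unfold Xs; push_cast; ring
    rw [e]; exact hd
  refine (Finset.card_le_card hsub).trans ?_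
  refine Finset.card_biUnion_le.trans ?_
  calc _ ≤ ∑ i ∈ Finset.range (q ^ 2 + 1), 2 :=
        Finset.sum_le_sum (fun i _ => two_roots b c p hp _ _ hA)
    _ = Dm q := by rw [Finset.sum_const, Finset.card_range, smul_eq_mul, mul_comm]; rfl

/-- numbers without medium prime factors have few prime factors -/
theorem rough_bound' (n z D e : ℕ) (hn : n ≠ 0)
    (hsmall : ∀ p : ℕ, p.Prime → p ≤ D → ¬ p ^ e ∣ n)
    (hq : ∀ p : ℕ, p.Prime → D < p → p ∣ n → z ≤ p) :
    ∃ m : ℕ, ArithmeticFunction.cardFactors n ≤ D * e + m ∧ z ^ m ≤ n := by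
  classical
  refine ⟨∑ p ∈ n.primeFactors.filter (fun p => D < p), n.factorization p, ?_, ?_⟩
  · rw [ArithmeticFunction.cardFactors_eq_sum_factorization, Finsupp.sum,
      Nat.support_factorization,
      ← Finset.sum_filter_add_sum_filter_not n.primeFactors (fun p => D < p), add_comm]
    apply add_le_add_left
    have hsub : n.primeFactors.filter (fun p => ¬ D < p) ⊆ Finset.Icc 1 D := by
      intro p hp
      rw [Finset.mem_filter] at hp
      have hpp := Nat.prime_of_mem_primeFactors hp.1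
      rw [Finset.mem_Icc]
      exact ⟨hpp.one_le, by omega⟩
    calc ∑ p ∈ n.primeFactors.filter (fun p => ¬ D < p), n.factorization p ≤
        ∑ p ∈ n.primeFactors.filter (fun p => ¬ D < p), e := by
          apply Finset.sum_le_sum
          intro p hp
          rw [Finset.mem_filter] at hp
          have hpp := Nat.prime_of_mem_primeFactors hp.1
          by_contra hcon
          push Not at hcon
          exact hsmall p hpp (by omega)
            ((hpp.pow_dvd_iff_le_factorization hn).2 hcon.le)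
      _ ≤ ∑ p ∈ Finset.Icc 1 D, e := Finset.sum_le_sum_of_subset hsub
      _ = D * e := by rw [Finset.sum_const, Nat.card_Icc, smul_eq_mul]; simp
  · rw [← Finset.prod_pow_eq_pow_sum]
    calc ∏ p ∈ n.primeFactors.filter (fun p => D < p), z ^ n.factorization p ≤
        ∏ p ∈ n.primeFactors.filter (fun p => D < p), p ^ n.factorization p := by
          apply Finset.prod_le_prod'
          intro p hp
          rw [Finset.mem_filter] at hp
          exact Nat.pow_le_pow_left (hq p (Nat.prime_of_mem_primeFactors hp.1) hp.2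
            (Nat.dvd_of_mem_primeFactors hp.1)) _
      _ ≤ ∏ p ∈ n.primeFactors, p ^ n.factorization p := by
          apply Finset.prod_le_prod_of_subset_of_one_le' (Finset.filter_subset _ _)
          intro p hp _
          exact Nat.one_le_pow _ _ (Nat.pos_of_mem_primeFactors hp)
      _ = n := by
          have := Nat.prod_factorization_pow_eq_self hn
          rwa [Finsupp.prod, Nat.support_factorization] at this

end Pool.Agent.Lib.QuadThree
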