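import Mathlib
import Pool.Agent.Lib.QuadThree.Setup
import Pool.Agent.Lib.QuadParity.Pair

/-!
The combinatorial pattern modulo `3`, and the value attached to a prime `k` and a sifted `s`.
-/

set_option autoImplicit false

namespace Pool.Agent.Lib.QuadThree

open Finset Pool.Agent.Lib.QuadParity

theorem dec_step : ∀ r u v : ZMod 3, u ≠ r → v ≠ r → u + v + (-r) ≠ r → u = v := by
  decide

theorem dec_final : ∀ r u γ : ZMod 3, γ ≠ 0 → u ≠ r → u + u + (-r + γ) ≠ r →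
    u + u + (-r + (γ + γ)) ≠ r → False := by
  decide

/-- no colouring avoids `r` -/
theorem pattern3 (Q : ℕ) (hQ : 1 ≤ Q) (col : ℕ → ZMod 3) (r γ : ZMod 3) (hγ : γ ≠ 0)
    (h1 : ∀ i : ℕ, i ≤ Q ^ 2 → col i ≠ r)
    (h2 : ∀ i : ℕ, i < Q ^ 2 → col i + col (i + 1) + (-r) ≠ r)
    (h3 : col 0 + col Q + (-r + γ) ≠ r) (h4 : col 0 + col (Q ^ 2) + (-r + (γ + γ)) ≠ r) :
    False := by
  have hQ2 : Q ≤ Q ^ 2 := by nlinarith
  have hconst : ∀ i : ℕ, i ≤ Q ^ 2 → col 0 = col i := by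
    intro i
    induction i with
    | zero => intro _; rfl
    | succ i ih =>
      intro hi
      rw [ih (by omega)]
      exact dec_step r _ _ (h1 i (by omega)) (h1 (i + 1) hi) (h2 i (by omega))
  rw [← hconst Q hQ2] at h3
  rw [← hconst (Q ^ 2) le_rfl] at h4
  exact dec_final r (col 0) γ hγ (h1 0 (by omega)) h3 h4

/-- completely additive functions with values in `ZMod 3` -/
def Addv (g : ℕ → ZMod 3) : Prop := ∀ m n : ℕ, m ≠ 0 → n ≠ 0 → g (m * n) = g m + g n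

theorem Addv.int {g : ℕ → ZMod 3} (hg : Addv g) {m n : ℤ} (hm : m ≠ 0) (hn : n ≠ 0) :
    g (m * n).natAbs = g m.natAbs + g n.natAbs := by
  rw [Int.natAbs_mul]
  exact hg _ _ (Int.natAbs_ne_zero.2 hm) (Int.natAbs_ne_zero.2 hn)

theorem Addv.one {g : ℕ → ZMod 3} (hg : Addv g) : g 1 = 0 := by
  have h := hg 1 1 one_ne_zero one_ne_zero
  rw [mul_one] at h
  simpa using h

theorem Addv.pow {g : ℕ → ZMod 3} (hg : Addv g) (q : ℕ) (hq : q ≠ 0) (j : ℕ) :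
    g (q ^ j) = j * g q := by
  induction j with
  | zero => rw [pow_zero, hg.one]; simp
  | succ j ih =>
    rw [pow_succ, hg _ _ (pow_ne_zero j hq) hq, ih]
    push_cast; ring

theorem dec_two : ∀ u v w : ZMod 3, v + w = (u + v) + (u + w) + u := by decide

theorem pair_color (g : ℕ → ZMod 3) (hg : Addv g) (b c x d l : ℤ) (hd : 0 < d)
    (h1 : 0 < mf b c x) (h2 : 0 < mf b c (x + d)) (hl : mf b c x = d * l) :
    0 < l ∧ 0 < mf b c (x + l) ∧ (∃ E : ℤ, 0 < E ∧ mf b c (x + d) = d * E ∧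
      mf b c (x + l) = l * E) ∧
    g (mf b c (x + l)).natAbs =
      g (mf b c x).natAbs + g (mf b c (x + d)).natAbs + g d.natAbs := by
  obtain ⟨e1, e2⟩ := mf_pair b c x d l hl
  have hl0 : 0 < l := by
    rw [hl] at h1
    exact pos_of_mul_pos_right h1 hd.le
  have hE : 0 < l + 2 * x + b + d := by
    rw [e1] at h2
    exact pos_of_mul_pos_right h2 hd.le
  generalize l + 2 * x + b + d = E at *
  refine ⟨hl0, by rw [e2]; positivity, ⟨E, hE, e1, e2⟩, ?_⟩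
  rw [e1, e2, hl, hg.int hd.ne' hl0.ne', hg.int hd.ne' hE.ne', hg.int hl0.ne' hE.ne']
  exact dec_two _ _ _

theorem pair3 (g : ℕ → ZMod 3) (hg : Addv g) (b c : ℤ) (q k j : ℕ) (hq : 1 ≤ q) (hk : 1 ≤ k)
    (hgq : g q ≠ 0) (r : ZMod 3) (hj : g k + j * g q = -r) (x : ℤ)
    (hpos : ∀ i : ℕ, i ≤ q ^ 2 → 0 < mf b c (x + i * (k * (q : ℤ) ^ j)))
    (hdiv : (k : ℤ) * (q : ℤ) ^ (j + 2) ∣ mf b c x) :
    ∃ i n : ℕ, i ≤ q ^ 2 ∧ i + n ≤ q ^ 2 ∧
      ((n = 0 ∧ g (mf b c (x + i * (k * (q : ℤ) ^ j))).natAbs = r) ∨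
       (0 < n ∧ ∃ l : ℤ, 0 < l ∧
          mf b c (x + i * (k * (q : ℤ) ^ j)) = (n * (k * (q : ℤ) ^ j)) * l ∧
          g (mf b c (x + i * (k * (q : ℤ) ^ j) + l)).natAbs = r)) := by
  by_contra hcon
  push Not at hcon
  have hq0 : q ≠ 0 := by omega
  have hk0 : k ≠ 0 := by omega
  set d0 : ℤ := k * (q : ℤ) ^ j with hd0
  have hd0pos : 0 < d0 := by
    have h1 : (0 : ℤ) < k := by exact_mod_cast hk
    have h2 : (0 : ℤ) < q := by exact_mod_cast hq
    positivity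
  have hd0abs : d0.natAbs = k * q ^ j := by
    rw [hd0, Int.natAbs_mul, Int.natAbs_pow]; rfl
  have hgd0 : g d0.natAbs = -r := by
    rw [hd0abs, hg _ _ hk0 (pow_ne_zero j hq0), hg.pow q hq0, hj]
  have hd0x : d0 ∣ mf b c x := by
    refine dvd_trans ?_ hdiv
    rw [hd0, pow_add, ← mul_assoc]
    exact Dvd.intro _ rfl
  have hq2 : q ≤ q ^ 2 := by nlinarith
  have hq21 : 1 ≤ q ^ 2 := by omega
  apply pattern3 q hq (fun i => g (mf b c (x + i * d0)).natAbs) r (g q) hgq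
  · intro i hi h
    exact (hcon i 0 hi (by omega)).1 rfl h
  · intro i hi h
    have h1 : d0 ∣ mf b c (x + i * d0) := by
      rw [mf_dvd_of b c d0 (x + i * d0) x]
      · exact hd0x
      · exact ⟨i, by ring⟩
    obtain ⟨l, hl⟩ := h1
    have e : x + ((i + 1 : ℕ) : ℤ) * d0 = x + i * d0 + d0 := by push_cast; ring
    have hp2 := hpos (i + 1) (by omega)
    rw [e] at h hp2
    obtain ⟨p1, p2, p3, p4⟩ := pair_color g hg b c (x + i * d0) d0 l hd0pos (hpos i (by omega))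
      hp2 hl
    apply (hcon i 1 (by omega) (by omega)).2 (by omega) l p1
    · rw [hl]; push_cast; ring
    · rw [p4, hgd0]; exact h
  · intro h
    simp only [Nat.cast_zero, zero_mul, add_zero] at h
    have h1 : (q : ℤ) * d0 ∣ mf b c x := by
      refine dvd_trans ?_ hdiv
      rw [hd0]
      exact ⟨q, by ring⟩
    obtain ⟨l, hl⟩ := h1
    have hp1 := hpos 0 (by omega)
    have hp2 := hpos q hq2
    simp only [Nat.cast_zero, zero_mul, add_zero] at hp1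
    have hqpos : (0 : ℤ) < q := by exact_mod_cast hq
    obtain ⟨p1, p2, p3, p4⟩ := pair_color g hg b c x (q * d0) l (by positivity) hp1 hp2 hl
    have hz := (hcon 0 q (by omega) (by omega)).2 (by omega) l p1
    simp only [Nat.cast_zero, zero_mul, add_zero] at hz
    apply hz hl
    rw [p4, hg.int hqpos.ne' hd0pos.ne', hgd0]
    rw [show (q : ℤ).natAbs = q from rfl, add_comm (g q) (-r)]
    exact h
  · intro h
    simp only [Nat.cast_zero, zero_mul, add_zero] at h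
    have h1 : ((q ^ 2 : ℕ) : ℤ) * d0 ∣ mf b c x := by
      refine dvd_trans ?_ hdiv
      rw [hd0]
      exact ⟨1, by push_cast; ring⟩
    obtain ⟨l, hl⟩ := h1
    have hp1 := hpos 0 (by omega)
    have hp2 := hpos (q ^ 2) le_rfl
    simp only [Nat.cast_zero, zero_mul, add_zero] at hp1
    have hqpos : (0 : ℤ) < ((q ^ 2 : ℕ) : ℤ) := by exact_mod_cast hq21
    obtain ⟨p1, p2, p3, p4⟩ := pair_color g hg b c x (((q ^ 2 : ℕ) : ℤ) * d0) l (by positivity)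
      hp1 hp2 hl
    have hz := (hcon 0 (q ^ 2) (by omega) (by omega)).2 (by omega) l p1
    simp only [Nat.cast_zero, zero_mul, add_zero] at hz
    apply hz hl
    rw [p4, hg.int hqpos.ne' hd0pos.ne', hgd0]
    rw [show (((q ^ 2 : ℕ) : ℤ)).natAbs = q ^ 2 from rfl, sq, hg _ _ hq0 hq0,
      add_comm (g q + g q) (-r)]
    rw [sq] at h
    exact h

/-- a bound for the quadratic polynomial -/
theorem mf_le (b c x : ℤ) (hx : 1 ≤ x) : mf b c x ≤ (1 + |b| + |c|) * x ^ 2 := by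
  have h := qf_le 1 b c x (by norm_num) hx
  have e : qf 1 b c x = mf b c x := by unfold qf mf; ring
  rwa [e] at h

theorem mf_pos (b c x : ℤ) (hx : |b| + |c| + 1 ≤ x) : 0 < mf b c x := by
  have h := qf_pos 1 b c x (by norm_num) hx
  have e : qf 1 b c x = mf b c x := by unfold qf mf; ring
  rwa [e] at h

/-- the constant `H` -/
def Hc (q : ℕ) : ℕ := 2 * Gm q + q ^ 5

theorem Xs_le (q k j : ℕ) (x0 : ℤ) (s i : ℕ) (hx0 : x0 < k * Gm q) (hj : j ≤ 3) (hq : 1 ≤ q)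
    (hi : i ≤ q ^ 2) (W : ℤ) (hW : (s : ℤ) + 1 ≤ W) : Xs q k j x0 s i ≤ k * Hc q * W := by
  have h1 : i * q ^ j ≤ q ^ 5 := by
    calc i * q ^ j ≤ q ^ 2 * q ^ 3 := Nat.mul_le_mul hi (Nat.pow_le_pow_right hq hj)
      _ = q ^ 5 := by ring
  have h1' : (i : ℤ) * (q : ℤ) ^ j ≤ (q : ℤ) ^ 5 := by exact_mod_cast h1
  have hs0 : (0 : ℤ) ≤ s := by positivity
  have hW1 : 1 ≤ W := by linarith
  have hk0 : (0 : ℤ) ≤ k := by positivity
  have hG0 : (0 : ℤ) ≤ Gm q := by positivity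
  have hkG : (0 : ℤ) ≤ k * Gm q := by positivity
  have h2 : (i : ℤ) * (k * (q : ℤ) ^ j) ≤ k * (q : ℤ) ^ 5 := by
    calc (i : ℤ) * (k * (q : ℤ) ^ j) = k * (i * (q : ℤ) ^ j) := by ring
      _ ≤ k * (q : ℤ) ^ 5 := mul_le_mul_of_nonneg_left h1' hk0
  have h3 : (k : ℤ) * (q : ℤ) ^ 5 ≤ k * (q : ℤ) ^ 5 * W := by
    have : (0 : ℤ) ≤ k * (q : ℤ) ^ 5 := by positivity
    nlinarith
  have h4 : (k : ℤ) * Gm q * (s + 1) ≤ k * Gm q * W := mul_le_mul_of_nonneg_left hW hkG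
  have h5 : (k : ℤ) * Gm q ≤ k * Gm q * W := by nlinarith
  unfold Xs Hc
  push_cast
  nlinarith

theorem le_Xs (q k j : ℕ) (x0 : ℤ) (s i : ℕ) (hx0 : 0 ≤ x0) : (k : ℤ) ≤ Xs q k j x0 s i := by
  unfold Xs
  have hG : (1 : ℤ) ≤ Gm q := by exact_mod_cast Gm_pos q
  have hk0 : (0 : ℤ) ≤ k := by positivity
  have hs0 : (0 : ℤ) ≤ s := by positivity
  have h1 : (0 : ℤ) ≤ i * (k * (q : ℤ) ^ j) := by positivity
  have h2 : (k : ℤ) * 1 ≤ k * (Gm q * (s + 1)) := by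
    apply mul_le_mul_of_nonneg_left _ hk0
    nlinarith
  nlinarith

/-- the value attached to `k` and `s` -/
theorem pair_props3 (g : ℕ → ZMod 3) (hg : Addv g) (b c : ℤ) (q k j : ℕ) (hq : q.Prime)
    (hk : k.Prime) (hkD : Dm q < k) (hgq : g q ≠ 0) (r : ZMod 3) (hj : g k + j * g q = -r)
    (hj1 : 1 ≤ j) (hj3 : j ≤ 3) (x0 : ℤ) (hD : DataK b c q k j x0)
    (hkb : |b| + |c| + 1 ≤ (k : ℤ)) (s z : ℕ)
    (hs : ∀ p : ℕ, p.Prime → Dm q < p → p ≤ z → ¬ badk b c q k j x0 p s)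
    (W : ℤ) (hW : (s : ℤ) + 1 ≤ W) :
    ∃ m : ℕ, ((z : ℤ) ^ m ≤ ((1 + |b| + |c|) * (k * Hc q * W) ^ 2) ^ 2) ∧
      ∃ i ∈ Finset.range (q ^ 2 + 1), ∃ n ∈ Finset.range (q ^ 2 + 1), ∃ (t : ℤ) (d : ℕ), 0 < t ∧
      t ≤ 2 * (1 + |b| + |c|) * (Hc q) ^ 2 * k * W ^ 2 ∧
      0 < mf b c t ∧ Om (mf b c t) ≤ 2 * (Dm q * Ex q) + m ∧ g (mf b c t).natAbs = r ∧
      d ∣ (mf b c t).natAbs ∧
      ((n = 0 ∧ t = Xs q k j x0 s i ∧ d = k) ∨
       (0 < n ∧ ∃ l : ℤ, 0 < l ∧ mf b c (Xs q k j x0 s i) = (n * (k * (q : ℤ) ^ j)) * l ∧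
          t = Xs q k j x0 s i + l ∧ d = l.natAbs)) := by
  classical
  obtain ⟨d1, d2, d3, d4, d5⟩ := hD
  have hF1 : (1 : ℤ) ≤ 1 + |b| + |c| := by
    have := abs_nonneg b; have := abs_nonneg c; linarith
  have hkpos : (0 : ℤ) < k := by exact_mod_cast hk.pos
  have hqpos : (0 : ℤ) < q := by exact_mod_cast hq.pos
  have hkz : Prime (k : ℤ) := Nat.prime_iff_prime_int.1 hk
  have hqz : Prime (q : ℤ) := Nat.prime_iff_prime_int.1 hq
  have hqk : ¬ (q : ℤ) ∣ (k : ℤ) := by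
    intro h
    have h1 : q ∣ k := by exact_mod_cast h
    have := (Nat.prime_dvd_prime_iff_eq hq hk).1 h1
    have := q_le_Dm q
    omega
  obtain ⟨x, hx⟩ : ∃ x : ℤ, x = Xs q k j x0 s 0 := ⟨_, rfl⟩
  have hXi : ∀ i : ℕ, Xs q k j x0 s i = x + i * (k * (q : ℤ) ^ j) := by
    intro i
    rw [hx]; unfold Xs; push_cast; ring
  have hxx0 : x - x0 = k * Gm q * (s + 1) := by
    rw [hx]; unfold Xs; push_cast; ring
  -- positivity
  have hpos : ∀ i : ℕ, i ≤ q ^ 2 → 0 < mf b c (x + i * (k * (q : ℤ) ^ j)) := by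
    intro i _
    rw [← hXi]
    apply mf_pos
    exact hkb.trans (le_Xs q k j x0 s i d1)
  have hone : ∀ i : ℕ, 1 ≤ Xs q k j x0 s i := fun i =>
    le_trans (by linarith) (le_Xs q k j x0 s i d1)
  -- divisibility
  have hkx : (k : ℤ) ∣ mf b c x := by
    rw [mf_dvd_of b c k x x0]
    · exact d3
    · rw [hxx0]; exact ⟨Gm q * (s + 1), by ring⟩
  have hEx7 : 7 ≤ Ex q := by unfold Ex; omega
  have hqx : (q : ℤ) ^ 6 ∣ mf b c x := by
    rw [mf_dvd_of b c _ x x0]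
    · exact d4
    · rw [hxx0]
      have h1 : (q : ℤ) ^ Ex q ∣ (Gm q : ℤ) := by exact_mod_cast pow_dvd_Gm q q hq (q_le_Dm q)
      have h2 : (q : ℤ) ^ 6 ∣ (Gm q : ℤ) := (pow_dvd_pow _ (by omega)).trans h1
      exact Dvd.dvd.mul_right (Dvd.dvd.mul_left h2 _) _
  have hdiv : (k : ℤ) * (q : ℤ) ^ (j + 2) ∣ mf b c x := by
    apply IsCoprime.mul_dvd _ hkx ((pow_dvd_pow _ (by omega)).trans hqx)
    apply IsCoprime.pow_right
    rw [isCoprime_comm]
    exact (hqz.coprime_iff_not_dvd).2 hqk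
  -- small primes
  have hsmall : ∀ i : ℕ, i ≤ q ^ 2 → ∀ p : ℕ, p.Prime → p ≤ Dm q →
      ¬ p ^ Ex q ∣ (mf b c (Xs q k j x0 s i)).natAbs := by
    intro i hi p hp hpD hd
    apply d5 p hp hpD i hi
    have h1 : ((p ^ Ex q : ℕ) : ℤ) ∣ mf b c (Xs q k j x0 s i) := Int.natCast_dvd.2 hd
    push_cast at h1
    rw [mf_dvd_of b c _ (x0 + i * (k * (q : ℤ) ^ j)) (Xs q k j x0 s i)]
    · exact h1
    · rw [hXi]
      have e : x0 + i * (k * (q : ℤ) ^ j) - (x + i * (k * (q : ℤ) ^ j)) =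
        -(k * Gm q * (s + 1)) := by linear_combination -hxx0
      rw [e, dvd_neg]
      have h2 : (p : ℤ) ^ Ex q ∣ (Gm q : ℤ) := by exact_mod_cast pow_dvd_Gm q p hp hpD
      exact Dvd.dvd.mul_right (Dvd.dvd.mul_left h2 _) _
  -- medium primes
  have hmed : ∀ i : ℕ, i ≤ q ^ 2 → ∀ p : ℕ, p.Prime → Dm q < p →
      p ∣ (mf b c (Xs q k j x0 s i)).natAbs → z ≤ p := by
    intro i hi p hp hpD hd
    by_contra hcon
    push Not at hcon
    apply hs p hp hpD hcon.le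
    unfold badk
    exact (Int.natCast_dvd.2 hd).trans
      (Finset.dvd_prod_of_mem (fun i => mf b c (Xs q k j x0 s i)) (Finset.mem_range.2 (by omega)))
  have hXle : ∀ i : ℕ, i ≤ q ^ 2 → Xs q k j x0 s i ≤ k * Hc q * W := fun i hi =>
    Xs_le q k j x0 s i d2 hj3 hq.one_le hi W hW
  obtain ⟨V, hV⟩ : ∃ V : ℤ, V = k * Hc q * W := ⟨_, rfl⟩
  have hH1 : (1 : ℤ) ≤ Hc q := by
    have h1 := Gm_pos q
    have : 1 ≤ Hc q := by unfold Hc; omega
    exact_mod_cast this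
  have hfle : ∀ i : ℕ, i ≤ q ^ 2 → mf b c (Xs q k j x0 s i) ≤ (1 + |b| + |c|) * V ^ 2 := by
    intro i hi
    refine (mf_le b c _ (hone i)).trans ?_
    apply mul_le_mul_of_nonneg_left _ (by linarith)
    apply pow_le_pow_left₀ (by linarith [hone i])
    rw [hV]; exact hXle i hi
  -- the number of prime factors of the vertices
  have hvert : ∀ i : ℕ, i ≤ q ^ 2 → ∃ m : ℕ, Om (mf b c (Xs q k j x0 s i)) ≤ Dm q * Ex q + m ∧
      (z : ℤ) ^ m ≤ (1 + |b| + |c|) * V ^ 2 := by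
    intro i hi
    have hp := hpos i hi
    rw [← hXi] at hp
    obtain ⟨m, hm1, hm2⟩ := rough_bound' (mf b c (Xs q k j x0 s i)).natAbs z (Dm q) (Ex q)
      (Int.natAbs_ne_zero.2 hp.ne') (hsmall i hi) (hmed i hi)
    refine ⟨m, hm1, ?_⟩
    have h : ((z ^ m : ℕ) : ℤ) ≤ ((mf b c (Xs q k j x0 s i)).natAbs : ℤ) := by exact_mod_cast hm2
    rw [Int.natAbs_of_nonneg hp.le] at h
    push_cast at h
    exact h.trans (hfle i hi)
  have hs0 : (0 : ℤ) ≤ s := by positivity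
  have hW1 : 1 ≤ W := by linarith
  have hV1 : 1 ≤ V := by
    have := hXle 0 (by omega)
    rw [← hV] at this
    exact (hone 0).trans this
  have hFV1 : 1 ≤ (1 + |b| + |c|) * V ^ 2 := by nlinarith [one_le_pow₀ hV1 (n := 2)]
  -- size bound
  have hsize1 : V ≤ 2 * (1 + |b| + |c|) * (Hc q) ^ 2 * k * W ^ 2 := by
    rw [hV]
    generalize 1 + |b| + |c| = F at *
    have h1 : (1 : ℤ) ≤ 2 * F * Hc q * W := by
      have a1 : (1 : ℤ) ≤ F * Hc q := by nlinarith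
      have a2 : (1 : ℤ) ≤ F * Hc q * W := by nlinarith
      nlinarith
    have h2 : (0 : ℤ) ≤ k * Hc q * W := by positivity
    have h3 := mul_le_mul_of_nonneg_left h1 h2
    nlinarith
  have hsize2 : ∀ i : ℕ, i ≤ q ^ 2 → ∀ n : ℕ, 0 < n → ∀ l : ℤ, 0 < l →
      mf b c (Xs q k j x0 s i) = (n * (k * (q : ℤ) ^ j)) * l →
      Xs q k j x0 s i + l ≤ 2 * (1 + |b| + |c|) * (Hc q) ^ 2 * k * W ^ 2 := by
    intro i hi n hn l hl0 hl
    have h1 := hfle i hi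
    rw [hl] at h1
    have hn1 : (1 : ℤ) ≤ n := by exact_mod_cast hn
    have hqj : (1 : ℤ) ≤ (q : ℤ) ^ j := one_le_pow₀ (by exact_mod_cast hq.one_le)
    have h2 : (k : ℤ) * l ≤ (n * (k * (q : ℤ) ^ j)) * l := by
      apply mul_le_mul_of_nonneg_right _ hl0.le
      have : (1 : ℤ) ≤ n * (q : ℤ) ^ j := by nlinarith
      nlinarith
    have h3 : (k : ℤ) * l ≤ k * ((1 + |b| + |c|) * (Hc q) ^ 2 * k * W ^ 2) := by
      refine (h2.trans h1).trans (le_of_eq ?_)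
      rw [hV]; ring
    have h4 := le_of_mul_le_mul_left h3 hkpos
    have h5 : Xs q k j x0 s i ≤ (1 + |b| + |c|) * (Hc q) ^ 2 * k * W ^ 2 := by
      refine (hXle i hi).trans ?_
      generalize 1 + |b| + |c| = F at *
      have h6 : (1 : ℤ) ≤ F * Hc q * W := by
        have a1 : (1 : ℤ) ≤ F * Hc q := by nlinarith
        nlinarith
      have h7 : (0 : ℤ) ≤ k * Hc q * W := by positivity
      have h8 := mul_le_mul_of_nonneg_left h6 h7
      nlinarith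
    linarith
  obtain ⟨i, n, hi, hin, hcase⟩ := pair3 g hg b c q k j hq.one_le hk.one_le hgq r hj x hpos hdiv
  rw [← hXi i] at hcase
  rw [← hV]
  rcases hcase with ⟨hn, hr⟩ | ⟨hn, l, hl0, hl, hr⟩
  · obtain ⟨m, hm1, hm2⟩ := hvert i hi
    refine ⟨m, ?_, i, Finset.mem_range.2 (by omega), n, Finset.mem_range.2 (by omega),
      Xs q k j x0 s i, k, by linarith [hone i], ?_, ?_, by omega, hr, ?_, Or.inl ⟨hn, rfl, rfl⟩⟩
    · refine hm2.trans ?_
      nlinarith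
    · have h1 := hXle i hi
      rw [← hV] at h1
      exact h1.trans hsize1
    · rw [hXi]; exact hpos i hi
    · apply Int.natCast_dvd.1
      rw [mf_dvd_of b c k (Xs q k j x0 s i) x]
      · exact hkx
      · rw [hXi]; exact ⟨i * (q : ℤ) ^ j, by ring⟩
  · have hdpos : (0 : ℤ) < n * (k * (q : ℤ) ^ j) := by positivity
    have hp1 := hpos i hi
    have hp2 := hpos (i + n) hin
    have e : x + ((i + n : ℕ) : ℤ) * (k * (q : ℤ) ^ j) =
      Xs q k j x0 s i + n * (k * (q : ℤ) ^ j) := by rw [hXi]; push_cast; ring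
    rw [← hXi] at hp1
    rw [e] at hp2
    obtain ⟨p1, p2, ⟨E, hE0, hE1, hE2⟩, p4⟩ := pair_color g hg b c (Xs q k j x0 s i)
      (n * (k * (q : ℤ) ^ j)) l hdpos hp1 hp2 hl
    obtain ⟨m, hm1, hm2⟩ := hvert i hi
    obtain ⟨m', hm1', hm2'⟩ := hvert (i + n) hin
    have eX : Xs q k j x0 s (i + n) = Xs q k j x0 s i + n * (k * (q : ℤ) ^ j) := by
      rw [hXi (i + n), e]
    rw [eX] at hm1'
    refine ⟨m + m', ?_, i, Finset.mem_range.2 (by omega), n, Finset.mem_range.2 (by omega),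
      Xs q k j x0 s i + l, l.natAbs, by linarith [hone i], hsize2 i hi n hn l hl0 hl, p2, ?_, hr,
      ?_, Or.inr ⟨hn, l, hl0, hl, rfl, rfl⟩⟩
    · rw [pow_add, sq ((1 + |b| + |c|) * V ^ 2)]
      exact mul_le_mul hm2 hm2' (by positivity) (by linarith)
    · have h1 : Om (mf b c (Xs q k j x0 s i + l)) = Om l + Om E := by
        rw [hE2, Om_mul hl0.ne' hE0.ne']
      have h2 : Om (mf b c (Xs q k j x0 s i)) = Om (n * (k * (q : ℤ) ^ j)) + Om l := by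
        rw [hl, Om_mul hdpos.ne' hl0.ne']
      have h3 : Om (mf b c (Xs q k j x0 s i + n * (k * (q : ℤ) ^ j))) =
          Om (n * (k * (q : ℤ) ^ j)) + Om E := by
        rw [hE1, Om_mul hdpos.ne' hE0.ne']
      omega
    · rw [hE2]
      exact Int.natAbs_dvd_natAbs.2 (Dvd.intro _ rfl)

end Pool.Agent.Lib.QuadThree
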