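import Mathlib
import Pool.Agent.Lib.QuadThree.Pattern

/-!
Counting values of `f` in a given class and with few prime factors.
-/

set_option autoImplicit false

namespace Pool.Agent.Lib.QuadThree

open Finset Pool.Agent.Lib.QuadParity

/-- the arguments `t ≤ N` with `f(t) > 0`, at most `B` prime factors and the right class -/
def goodT3 (g : ℕ → ZMod 3) (b c : ℤ) (r : ZMod 3) (B N : ℕ) : Finset ℕ :=
  (Finset.Icc 1 N).filter (fun t : ℕ => 0 < mf b c t ∧ Om (mf b c t) ≤ B ∧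
    g (mf b c t).natAbs = r)

theorem dec_j : ∀ u γ r : ZMod 3, γ ≠ 0 →
    u + ((1 : ℕ) : ZMod 3) * γ = -r ∨ u + ((2 : ℕ) : ZMod 3) * γ = -r ∨
      u + ((3 : ℕ) : ZMod 3) * γ = -r := by
  decide

theorem exists_j (u γ r : ZMod 3) (hγ : γ ≠ 0) :
    ∃ j : ℕ, (1 ≤ j ∧ j ≤ 3) ∧ u + j * γ = -r := by
  rcases dec_j u γ r hγ with h | h | h
  · exact ⟨1, by omega, h⟩
  · exact ⟨2, by omega, h⟩
  · exact ⟨3, by omega, h⟩

theorem Xs_inj (q k j : ℕ) (hk : 0 < k) (x0 : ℤ) (s s' i : ℕ)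
    (h : Xs q k j x0 s i = Xs q k j x0 s' i) : s = s' := by
  unfold Xs at h
  have hk' : (0 : ℤ) < k := by exact_mod_cast hk
  have hG : (0 : ℤ) < Gm q := by exact_mod_cast Gm_pos q
  have h1 : (k : ℤ) * Gm q * (s : ℤ) = k * Gm q * (s' : ℤ) := by linarith
  exact_mod_cast mul_left_cancel₀ (mul_pos hk' hG).ne' h1

theorem prime_pow_inj (q k k' j j' : ℕ) (hq : q.Prime) (hk : k.Prime) (hk' : k'.Prime)
    (hkq : k ≠ q) (h : k * q ^ j = k' * q ^ j') : k = k' := by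
  have h1 : k ∣ k' * q ^ j' := by rw [← h]; exact Dvd.intro _ rfl
  rcases (Nat.Prime.dvd_mul hk).1 h1 with h2 | h2
  · exact (Nat.prime_dvd_prime_iff_eq hk hk').1 h2
  · exact absurd ((Nat.prime_dvd_prime_iff_eq hk hq).1 (hk.dvd_of_dvd_pow h2)) hkq

theorem main_count3 (g : ℕ → ZMod 3) (hg : Addv g) (b c : ℤ) (q : ℕ) (hq : q.Prime) (t0 : ℤ)
    (ht0 : (q : ℤ) ∣ mf b c t0) (hΔ : ¬ (q : ℤ) ∣ b ^ 2 - 4 * c) (hgq : g q ≠ 0) (r : ZMod 3)
    (N0 : ℕ) (hN0 : SieveBound (Dm q) N0) (n : ℕ) (hn : N0 ≤ n) (K : Finset ℕ)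
    (hK1 : ∀ k ∈ K, k.Prime) (hK2 : ∀ k ∈ K, Dm q < k)
    (hK3 : ∀ k ∈ K, ∃ ρ : ℤ, (k : ℤ) ∣ mf b c ρ)
    (hK5 : ∀ k ∈ K, 2 ^ (2 ^ n) < k) (hK6 : ∀ k ∈ K, |b| + |c| + 1 ≤ (k : ℤ))
    (N : ℕ) (hN : ∀ k ∈ K, 2 * (1 + |b| + |c|) * (Hc q) ^ 2 * k *
      (2 ^ ((8 * Dm q + 7) * 2 ^ n)) ^ 2 ≤ (N : ℤ))
    (B : ℕ) (hB : ∀ m : ℕ, ((2 : ℤ) ^ (2 ^ n)) ^ m ≤ ((1 + |b| + |c|) * (N : ℤ) ^ 2) ^ 2 →
      2 * (Dm q * Ex q) + m ≤ B) :
    (K.card : ℝ) * (2 : ℝ) ^ ((8 * Dm q + 7) * 2 ^ n) ≤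
      2 ^ ((2 * Dm q + 1) * n) *
        (((goodT3 g b c r B N).card : ℝ) * (((q ^ 2 + 1) * (q ^ 2 + 1) : ℕ) * 2 ^ B)) := by
  classical
  have hdata : ∀ k : ℕ, k ∈ K → ∃ (j : ℕ) (x0 : ℤ), (1 ≤ j ∧ j ≤ 3) ∧
      g k + j * g q = -r ∧ DataK b c q k j x0 := by
    intro k hk
    obtain ⟨j, hj, hj'⟩ := exists_j (g k) (g q) r hgq
    obtain ⟨ρ, hρ⟩ := hK3 k hk
    obtain ⟨x0, hx0⟩ := dataK_exists b c q hq t0 ht0 hΔ k (hK1 k hk) (hK2 k hk) ρ hρ j hj.1 hj.2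
    exact ⟨j, x0, hj, hj', hx0⟩
  choose! j x0 hj13 hjr hD using hdata
  set F := 1 + |b| + |c| with hF
  set z : ℕ := 2 ^ (2 ^ n) with hz
  set W : ℤ := 2 ^ ((8 * Dm q + 7) * 2 ^ n) with hW
  have hb0 := abs_nonneg b
  have hc0 := abs_nonneg c
  have hF1 : 1 ≤ F := by rw [hF]; linarith
  have hW1 : 1 ≤ W := one_le_pow₀ (by norm_num)
  have hH1 : (1 : ℤ) ≤ Hc q := by
    have h1 := Gm_pos q
    have : 1 ≤ Hc q := by unfold Hc; omega
    exact_mod_cast this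
  have hVN : ∀ k ∈ K, (k : ℤ) * Hc q * W ≤ N := by
    intro k hk
    refine le_trans ?_ (hN k hk)
    have h1 : (1 : ℤ) ≤ 2 * F * Hc q * W := by
      have a1 : (1 : ℤ) ≤ F * Hc q := by nlinarith
      have a2 : (1 : ℤ) ≤ F * Hc q * W := by nlinarith
      nlinarith
    have h2 : (0 : ℤ) ≤ k * Hc q * W := by positivity
    have h3 := mul_le_mul_of_nonneg_left h1 h2
    nlinarith
  -- the sifted sets
  set Sk : ℕ → Finset ℕ := fun k => sifted (Dm q) (badk b c q k (j k) (x0 k)) n with hSk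
  set G : Finset (Σ _ : ℕ, ℕ) := K.sigma Sk with hG
  have hcardG : (K.card : ℝ) * (2 : ℝ) ^ ((8 * Dm q + 7) * 2 ^ n) ≤
      2 ^ ((2 * Dm q + 1) * n) * (G.card : ℝ) := by
    rw [hG, Finset.card_sigma]
    push_cast
    rw [Finset.mul_sum, ← nsmul_eq_mul, ← Finset.sum_const]
    apply Finset.sum_le_sum
    intro k hk
    apply hN0 n hn
    · exact per_badk _ _ _ _ _ _
    · intro p hp h4 hpz
      apply nb_badk b c q k (j k) (x0 k) p hp h4
      intro hd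
      have h2 := (Nat.prime_dvd_prime_iff_eq hp (hK1 k hk)).1 hd
      have h3 := hK5 k hk
      omega
  refine hcardG.trans ?_
  apply mul_le_mul_of_nonneg_left _ (by positivity)
  -- the map
  set U : Finset (Σ _ : ℕ, (ℕ × ℕ) × ℕ) := (goodT3 g b c r B N).sigma
    (fun t => (Finset.range (q ^ 2 + 1) ×ˢ Finset.range (q ^ 2 + 1)) ×ˢ
      (mf b c t).natAbs.divisors) with hU
  have hcardU : (U.card : ℝ) ≤ ((goodT3 g b c r B N).card : ℝ) *
      (((q ^ 2 + 1) * (q ^ 2 + 1) : ℕ) * 2 ^ B) := by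
    rw [hU, Finset.card_sigma]
    push_cast
    rw [← nsmul_eq_mul, ← Finset.sum_const]
    apply Finset.sum_le_sum
    intro t ht
    rw [Finset.card_product, Finset.card_product, Finset.card_range]
    push_cast
    apply mul_le_mul_of_nonneg_left _ (by positivity)
    unfold goodT3 at ht
    rw [Finset.mem_filter] at ht
    have h1 := card_divisors_le (mf b c t).natAbs (Int.natAbs_ne_zero.2 ht.2.1.ne')
    have h2 : 2 ^ ArithmeticFunction.cardFactors (mf b c t).natAbs ≤ 2 ^ B :=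
      Nat.pow_le_pow_right (by norm_num) ht.2.2.1
    exact_mod_cast h1.trans h2
  refine le_trans ?_ hcardU
  have hprops : ∀ p : (Σ _ : ℕ, ℕ), p ∈ G → ∃ (i m t d : ℕ),
      (⟨t, ((i, m), d)⟩ : Σ _ : ℕ, (ℕ × ℕ) × ℕ) ∈ U ∧
      ((m = 0 ∧ (t : ℤ) = Xs q p.1 (j p.1) (x0 p.1) p.2 i ∧ d = p.1) ∨
       (0 < m ∧ ∃ l : ℤ, 0 < l ∧
          mf b c (Xs q p.1 (j p.1) (x0 p.1) p.2 i) = (m * (p.1 * (q : ℤ) ^ (j p.1))) * l ∧
          (t : ℤ) = Xs q p.1 (j p.1) (x0 p.1) p.2 i + l ∧ d = l.natAbs)) := by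
    rintro ⟨k, s⟩ hp
    rw [hG, Finset.mem_sigma] at hp
    obtain ⟨hk, hs⟩ := hp
    simp only at hk hs
    rw [hSk, mem_sifted] at hs
    have hDk := hD k hk
    obtain ⟨m, hm, i, hi, e, he, t, d, ht0, htB, ht2, ht3, ht4, ht5, ht6⟩ := pair_props3 g hg b c
      q k (j k) hq (hK1 k hk) (hK2 k hk) hgq r (hjr k hk) (hj13 k hk).1 (hj13 k hk).2 (x0 k) hDk
      (hK6 k hk) s z hs.2 W (by
        have : s + 1 ≤ 2 ^ ((8 * Dm q + 7) * 2 ^ n) := hs.1
        rw [hW]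
        exact_mod_cast this)
    have hNk := hN k hk
    have htN : t ≤ (N : ℤ) := htB.trans hNk
    have hzm : ((2 : ℤ) ^ (2 ^ n)) ^ m ≤ (F * (N : ℤ) ^ 2) ^ 2 := by
      have h1 : ((z : ℤ) ^ m) = ((2 : ℤ) ^ (2 ^ n)) ^ m := by rw [hz]; push_cast; rfl
      rw [← h1]
      refine hm.trans ?_
      apply pow_le_pow_left₀ (by positivity)
      apply mul_le_mul_of_nonneg_left _ (by linarith)
      apply pow_le_pow_left₀ (by positivity)
      exact hVN k hk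
    have hBm := hB m hzm
    have htt : ((t.toNat : ℕ) : ℤ) = t := Int.toNat_of_nonneg ht0.le
    refine ⟨i, e, t.toNat, d, ?_, ?_⟩
    · rw [hU, Finset.mem_sigma]
      simp only
      constructor
      · unfold goodT3
        rw [Finset.mem_filter, Finset.mem_Icc, htt]
        refine ⟨⟨by omega, by omega⟩, ht2, by omega, ht4⟩
      · rw [Finset.mem_product, Finset.mem_product, Nat.mem_divisors, htt]
        exact ⟨⟨hi, he⟩, ht5, Int.natAbs_ne_zero.2 ht2.ne'⟩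
    · rw [htt]
      exact ht6
  choose! I M T D hU1 hU2 using hprops
  have : G.card ≤ U.card := by
    apply Finset.card_le_card_of_injOn
      (fun p => (⟨T p, ((I p, M p), D p)⟩ : Σ _ : ℕ, (ℕ × ℕ) × ℕ))
    · intro p hp
      exact hU1 p hp
    · rintro ⟨k, s⟩ hp ⟨k', s'⟩ hp' heq
      have hp1 := hp
      have hp1' := hp'
      rw [Finset.mem_coe, hG, Finset.mem_sigma] at hp1 hp1'
      have hkK : k ∈ K := hp1.1
      have hkK' : k' ∈ K := hp1'.1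
      have q1 := hU2 ⟨k, s⟩ hp
      have q2 := hU2 ⟨k', s'⟩ hp'
      simp only [Sigma.mk.injEq, heq_eq_eq, Prod.mk.injEq] at heq
      obtain ⟨hT, ⟨hI, hM⟩, hDd⟩ := heq
      rw [← hT, ← hI, ← hM, ← hDd] at q2
      generalize T ⟨k, s⟩ = t at q1 q2
      generalize I ⟨k, s⟩ = i at q1 q2
      generalize M ⟨k, s⟩ = m at q1 q2
      generalize D ⟨k, s⟩ = d at q1 q2
      simp only at q1 q2
      have hkey : k = k' → Xs q k (j k) (x0 k) s i = Xs q k' (j k') (x0 k') s' i →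
          (⟨k, s⟩ : Σ _ : ℕ, ℕ) = ⟨k', s'⟩ := by
        rintro rfl h
        rw [Xs_inj q k (j k) (hK1 k hkK).pos (x0 k) s s' i h]
      rcases q1 with ⟨hj, h1, h2⟩ | ⟨hj, l, h0, h1, h2, h3⟩
      · rcases q2 with ⟨hj', h1', h2'⟩ | ⟨hj', l', h0', h1', h2', h3'⟩
        · apply hkey (by omega)
          rw [← h1, ← h1']
        · omega
      · rcases q2 with ⟨hj', h1', h2'⟩ | ⟨hj', l', h0', h1', h2', h3'⟩
        · omega
        · have hll : l = l' := by omega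
          subst hll
          have hxx : Xs q k (j k) (x0 k) s i = Xs q k' (j k') (x0 k') s' i := by linarith
          rw [← hxx, h1] at h1'
          have h4 := mul_right_cancel₀ h0.ne' h1'
          have hm0 : (m : ℤ) ≠ 0 := by exact_mod_cast hj.ne'
          have h5 := mul_left_cancel₀ hm0 h4
          have h6 : k * q ^ (j k) = k' * q ^ (j k') := by exact_mod_cast h5
          have h7 := prime_pow_inj q k k' (j k) (j k') hq (hK1 k hkK) (hK1 k' hkK') (by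
            have := hK2 k hkK
            have := q_le_Dm q
            omega) h6
          exact hkey h7 hxx
  exact_mod_cast this

end Pool.Agent.Lib.QuadThree
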